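import Pool.Agent.Lib_helper55.ConnPair.Defs

/-!
Basic facts on disconnecting pairs and connectivity pairs.
-/

set_option autoImplicit false

namespace Pool.Agent.ConnPair

variable {V : Type}

/-- a closed set separates -/
lemma not_reachable_of_closed {G : SimpleGraph V} {v w : V} (X : Set V) (hv : v ∈ X) (hw : w ∉ X)
    (h : ∀ x ∈ X, ∀ y, G.Adj x y → y ∈ X) : ¬ G.Reachable v w := by
  rintro ⟨p⟩
  have : ∀ {a b : V} (q : G.Walk a b), a ∈ X → b ∈ X := by
    intro a b q
    induction q with
    | nil => exact fun h => h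
    | cons hadj _ ih => exact fun ha => ih (h _ ha _ hadj)
  exact hw (this p hv)

/-- the set of vertices reachable from `v` -/
def side (G : SimpleGraph V) (S : Finset V) (T : Finset (Sym2 V)) (v : V) : Set V :=
  {x | (del G S T).Reachable v x}

lemma side_step {G : SimpleGraph V} {S : Finset V} {T : Finset (Sym2 V)} {v x y : V}
    (h : G.Adj x y) (hx : x ∉ S) (hy : y ∉ S) (he : s(x, y) ∉ T) :
    x ∈ side G S T v ↔ y ∈ side G S T v := by
  have h1 : (del G S T).Adj x y := ⟨h, hx, hy, he⟩
  constructor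
  · intro h2
    exact h2.trans h1.reachable
  · intro h2
    exact h2.trans h1.symm.reachable

lemma not_mem_side {G : SimpleGraph V} {S : Finset V} {T : Finset (Sym2 V)} {v x : V}
    (hv : v ∉ S) (hx : x ∈ side G S T v) : x ∉ S := by
  intro hxS
  refine not_reachable_of_closed {y | y ∉ S} hv (fun h => h hxS) ?_ hx
  intro y _ z h
  exact h.2.2.1

variable {G : SimpleGraph V} {v w : V}

/-- replacing an edge by a vertex -/
lemma HasPair.step (hvw : ¬ G.Adj v w) {s t : ℕ} (h : HasPair G v w s t) (ht : 1 ≤ t) :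
    ∃ s' ≤ s + 1, HasPair G v w s' (t - 1) := by
  classical
  obtain ⟨S, T, hv, hw, hT, rfl, rfl, hr⟩ := h
  obtain ⟨e, he⟩ := Finset.card_pos.mp ht
  have hx : ∃ x ∈ e, x ≠ v ∧ x ≠ w := by
    have hadj := hT e he
    clear hr
    revert he hadj
    refine Sym2.ind (fun a b => ?_) e
    intro he hadj
    rw [SimpleGraph.mem_edgeSet] at hadj
    by_cases ha : a ≠ v ∧ a ≠ w
    · exact ⟨a, Sym2.mem_mk_left a b, ha⟩
    · refine ⟨b, Sym2.mem_mk_right a b, ?_⟩
      constructor
      · rintro rfl
        apply ha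
        refine ⟨hadj.ne, ?_⟩
        rintro rfl
        exact hvw hadj.symm
      · rintro rfl
        apply ha
        refine ⟨?_, hadj.ne⟩
        rintro rfl
        exact hvw hadj
  obtain ⟨x, hxe, hxv, hxw⟩ := hx
  refine ⟨(insert x S).card, Finset.card_insert_le x S, insert x S, T.erase e, ?_, ?_, ?_, rfl,
    Finset.card_erase_of_mem he, ?_⟩
  · rw [Finset.mem_insert]
    rintro (h | h)
    · exact hxv h.symm
    · exact hv h
  · rw [Finset.mem_insert]
    rintro (h | h)
    · exact hxw h.symm
    · exact hw h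
  · intro f hf
    exact hT f (Finset.mem_of_mem_erase hf)
  · intro hreach
    apply hr
    refine hreach.mono ?_
    intro a b hab
    obtain ⟨h1, h2, h3, h4⟩ := hab
    rw [Finset.mem_insert, not_or] at h2 h3
    refine ⟨h1, h2.2, h3.2, ?_⟩
    intro h5
    apply h4
    rw [Finset.mem_erase]
    refine ⟨?_, h5⟩
    rintro rfl
    rcases Sym2.mem_iff.mp hxe with h6 | h6
    · exact h2.1 h6.symm
    · exact h3.1 h6.symm

/-- existence of some disconnecting pair -/
lemma exists_hasPair [Finite V] (hne : v ≠ w) : ∃ t, HasPair G v w 0 t := by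
  classical
  haveI := Fintype.ofFinite V
  refine ⟨_, ∅, Finset.univ.filter (fun e => e ∈ G.edgeSet), by simp, by simp, ?_, rfl, rfl, ?_⟩
  · intro e he
    exact (Finset.mem_filter.mp he).2
  · refine not_reachable_of_closed {v} rfl (fun h => hne h.symm) ?_
    intro x _ y h
    exfalso
    apply h.2.2.2
    rw [Finset.mem_filter]
    exact ⟨Finset.mem_univ _, h.1⟩

/-- existence of a separating set of vertices -/
lemma exists_hasPair' [Finite V] (hne : v ≠ w) (hvw : ¬ G.Adj v w) : ∃ s, HasPair G v w s 0 := by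
  obtain ⟨t, ht⟩ := exists_hasPair (G := G) hne
  have : ∀ (t s : ℕ), HasPair G v w s t → ∃ s, HasPair G v w s 0 := by
    intro t
    induction t with
    | zero => exact fun s h => ⟨s, h⟩
    | succ t ih =>
      intro s h
      obtain ⟨s', -, h'⟩ := h.step hvw (by omega)
      exact ih s' (by simpa using h')
  exact this t 0 ht

/-- Connectivity pairs in terms of bounds. -/
lemma isConnPair_iff (hvw : ¬ G.Adj v w) {k F : ℕ} (hk : ∀ s, HasPair G v w s 0 → k ≤ s)
    (hUB : ∃ s ≤ k, HasPair G v w s F)
    (hLB : ∀ s t, s ≤ k → HasPair G v w s t → F ≤ t) (l : ℕ) :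
    IsConnPair G v w k l ↔ l = F := by
  have key : ∀ s t, HasPair G v w s t → s < k → F < t := by
    intro s t h hs
    rcases Nat.eq_zero_or_pos t with rfl | ht
    · have := hk s h
      omega
    · obtain ⟨s', hs', h'⟩ := h.step hvw ht
      have := hLB s' (t - 1) (by omega) h'
      omega
  constructor
  · rintro ⟨h1, -, h3⟩
    obtain ⟨s0, hs0, h0⟩ := hUB
    have hle : l ≤ F := by
      by_contra hc
      exact h1 s0 F h0 (Or.inr ⟨hs0, by omega⟩)
    have hge : F ≤ l := by
      by_contra hc
      apply h3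
      rintro s t h (⟨ha, hb⟩ | ⟨ha, hb⟩)
      · have := key s t h ha
        omega
      · have := hLB s t ha h
        omega
    omega
  · rintro rfl
    obtain ⟨s0, hs0, h0⟩ := hUB
    refine ⟨?_, ?_, ?_⟩
    · rintro s t h (⟨ha, hb⟩ | ⟨ha, hb⟩)
      · have := key s t h ha
        omega
      · have := hLB s t ha h
        omega
    · intro h
      exact h s0 l h0 (Or.inl ⟨by omega, le_rfl⟩)
    · intro h
      exact h s0 l h0 (Or.inr ⟨hs0, by omega⟩)

/-- If there is a connectivity pair `(k, l)`, then `k` is at most the size of every separating set of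
vertices. -/
lemma le_of_isConnPair {k l : ℕ} (h : IsConnPair G v w k l) : ∀ s, HasPair G v w s 0 → k ≤ s := by
  intro s hs
  by_contra hc
  exact h.1 s 0 hs (Or.inl ⟨by omega, Nat.zero_le _⟩)

/-- For non-adjacent vertices and `k` at most the size of every separating set there is exactly one
connectivity pair `(k, l)`, and `l` is the least number of edges of a disconnecting pair with at most
`k` vertices. -/
theorem existsUnique_connPair [Finite V] (hne : v ≠ w) (hvw : ¬ G.Adj v w) {k : ℕ}
    (hk : ∀ s, HasPair G v w s 0 → k ≤ s) :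
    ∃ F, (∀ l, IsConnPair G v w k l ↔ l = F) ∧
      ∀ m, (∃ s ≤ k, ∃ t ≤ m, HasPair G v w s t) ↔ F ≤ m := by
  classical
  have hex : ∃ t, ∃ s ≤ k, HasPair G v w s t := by
    obtain ⟨t, ht⟩ := exists_hasPair (G := G) hne
    exact ⟨t, 0, Nat.zero_le _, ht⟩
  refine ⟨Nat.find hex, ?_, ?_⟩
  · apply isConnPair_iff hvw hk (Nat.find_spec hex)
    intro s t hs h
    exact Nat.find_min' hex ⟨s, hs, h⟩
  · intro m
    constructor
    · rintro ⟨s, hs, t, ht, h⟩
      exact (Nat.find_min' hex ⟨s, hs, h⟩).trans ht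
    · intro hm
      obtain ⟨s, hs, h⟩ := Nat.find_spec hex
      exact ⟨s, hs, _, hm, h⟩

end Pool.Agent.ConnPair
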