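import Mathlib

/-!
Mixed connectivity of two vertices: disconnecting pairs and connectivity pairs.
-/

set_option autoImplicit false

namespace Pool.Agent.ConnPair

variable {V : Type}

/-- The graph obtained from `G` by deleting the edges in `T` and all edges with an end in `S` (the
vertices in `S` are kept as isolated vertices; this does not change the components of the other
vertices). -/
def del (G : SimpleGraph V) (S : Finset V) (T : Finset (Sym2 V)) : SimpleGraph V where
  Adj x y := G.Adj x y ∧ x ∉ S ∧ y ∉ S ∧ s(x, y) ∉ T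
  symm := ⟨fun x y h => ⟨h.1.symm, h.2.2.1, h.2.1, by rw [Sym2.eq_swap]; exact h.2.2.2⟩⟩
  loopless := ⟨fun x h => G.loopless.irrefl x h.1⟩

/-- There is a `v`–`w` disconnecting pair with `s` vertices and `t` edges: a set `S` of `s` vertices
other than `v, w` and a set `T` of `t` edges such that `v` and `w` lie in different components of
`G - (S ∪ T)`. -/
def HasPair (G : SimpleGraph V) (v w : V) (s t : ℕ) : Prop :=
  ∃ (S : Finset V) (T : Finset (Sym2 V)), v ∉ S ∧ w ∉ S ∧ (∀ e ∈ T, e ∈ G.edgeSet) ∧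
    S.card = s ∧ T.card = t ∧ ¬ (del G S T).Reachable v w

/-- The vertices `v, w` are `(k, l)`-connected. -/
def KL (G : SimpleGraph V) (v w : V) (k l : ℕ) : Prop :=
  ∀ s t, HasPair G v w s t → ¬ ((s < k ∧ t ≤ l) ∨ (s ≤ k ∧ t < l))

/-- `(k, l)` is a `v`–`w` connectivity pair. -/
def IsConnPair (G : SimpleGraph V) (v w : V) (k l : ℕ) : Prop :=
  KL G v w k l ∧ ¬ KL G v w (k + 1) l ∧ ¬ KL G v w k (l + 1)

/-- The graph on `{0, …, L.length - 1}` with adjacency lists `L`: the entry of `L` at `u` lists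
neighbours of `u`. -/
def graphOf (L : List (List ℕ)) : SimpleGraph (Fin L.length) :=
  SimpleGraph.fromRel fun u v => (v : ℕ) ∈ L[(u : ℕ)]

/-- The decision problem `l ≤ m` for the second coordinate: an instance is a graph given by adjacency
lists, two vertices `v, w` and numbers `k, m`; the question is whether the second coordinate `l` of
the `v`–`w` connectivity pair `(k, l)` satisfies `l ≤ m`. -/
def SecondLE (I : List (List ℕ) × ℕ × ℕ × ℕ × ℕ) : Prop :=
  ∃ (hv : I.2.1 < I.1.length) (hw : I.2.2.1 < I.1.length), ∃ l ≤ I.2.2.2.2,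
    IsConnPair (graphOf I.1) ⟨I.2.1, hv⟩ ⟨I.2.2.1, hw⟩ I.2.2.2.1 l

/-- The same problem without reference to connectivity pairs: is there a disconnecting pair with at
most `k` vertices and at most `m` edges? -/
def MixedCut (I : List (List ℕ) × ℕ × ℕ × ℕ × ℕ) : Prop :=
  ∃ (hv : I.2.1 < I.1.length) (hw : I.2.2.1 < I.1.length),
    ∃ s ≤ I.2.2.2.1, ∃ t ≤ I.2.2.2.2, HasPair (graphOf I.1) ⟨I.2.1, hv⟩ ⟨I.2.2.1, hw⟩ s t

/-- The instances of these problems allowed in the question, with all vertices other than `v, w` of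
degree at most `d`: `v, w` are distinct non-adjacent vertices, and `k` is at most `κ(v, w)`, the
minimum size of a vertex set separating `v` from `w`. -/
def Valid (d : ℕ) (I : List (List ℕ) × ℕ × ℕ × ℕ × ℕ) : Prop :=
  ∃ (hv : I.2.1 < I.1.length) (hw : I.2.2.1 < I.1.length),
    I.2.1 ≠ I.2.2.1 ∧ ¬ (graphOf I.1).Adj ⟨I.2.1, hv⟩ ⟨I.2.2.1, hw⟩ ∧
    (∀ s, HasPair (graphOf I.1) ⟨I.2.1, hv⟩ ⟨I.2.2.1, hw⟩ s 0 → I.2.2.2.1 ≤ s) ∧
    ∀ x : Fin I.1.length, (x : ℕ) ≠ I.2.1 → (x : ℕ) ≠ I.2.2.1 →
      ((graphOf I.1).neighborSet x).ncard ≤ d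

/-- The problem CLIQUE: does the graph with adjacency lists `I.1` have `I.2` pairwise adjacent
vertices? -/
def HasClique (I : List (List ℕ) × ℕ) : Prop :=
  ∃ W : Finset (Fin I.1.length), W.card = I.2 ∧ (graphOf I.1).IsClique W

end Pool.Agent.ConnPair
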