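import Pool.Agent.Lib_helper55.ConnPair.Basic

/-!
Graphs in which the vertices other than `v, w` have small degree.
-/

set_option autoImplicit false

namespace Pool.Agent.ConnPair

variable {V : Type} {G : SimpleGraph V} {v w : V}

lemma card_image_le_ncard [Finite V] (x : V) (A : Set V) :
    ∃ E : Finset (Sym2 V), (∀ e, e ∈ E ↔ ∃ y ∈ A, e = s(x, y)) ∧ E.card ≤ A.ncard := by
  classical
  haveI := Fintype.ofFinite V
  refine ⟨A.toFinset.image (fun y => s(x, y)), ?_, ?_⟩
  · intro e
    simp only [Finset.mem_image, Set.mem_toFinset]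
    constructor
    · rintro ⟨y, hy, rfl⟩
      exact ⟨y, hy, rfl⟩
    · rintro ⟨y, hy, rfl⟩
      exact ⟨y, hy, rfl⟩
  · refine Finset.card_image_le.trans ?_
    rw [Set.ncard_eq_toFinset_card']

/-- replacing a vertex of degree at most `d` by at most `d / 2` edges -/
lemma HasPair.unstep [Finite V] {d : ℕ}
    (hd : ∀ x, x ≠ v → x ≠ w → (G.neighborSet x).ncard ≤ d) {s t : ℕ}
    (h : HasPair G v w (s + 1) t) : ∃ t' ≤ t + d / 2, HasPair G v w s t' := by
  classical
  obtain ⟨S, T, hv, hw, hT, hs, rfl, hr⟩ := h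
  have hpos : 0 < S.card := by omega
  obtain ⟨x, hx⟩ := Finset.card_pos.mp hpos
  have hxv : x ≠ v := by
    rintro rfl
    exact hv hx
  have hxw : x ≠ w := by
    rintro rfl
    exact hw hx
  set X := side G S T v with hX
  have hvX : v ∈ X := SimpleGraph.Reachable.refl v
  have hwX : w ∉ X := hr
  have hxX : x ∉ X := fun h => not_mem_side hv h hx
  set A : Set V := {y | G.Adj x y ∧ y ∈ X} with hA
  set B : Set V := {y | G.Adj x y ∧ y ∉ X ∧ y ∉ S} with hB
  have hAB : A.ncard + B.ncard ≤ d := by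
    have h1 : Disjoint A B := by
      rw [Set.disjoint_left]
      rintro y ⟨-, h2⟩ ⟨-, h3, -⟩
      exact h3 h2
    rw [← Set.ncard_union_eq h1 (Set.toFinite A) (Set.toFinite B)]
    refine le_trans (Set.ncard_le_ncard ?_ (Set.toFinite _)) (hd x hxv hxw)
    rintro y (h2 | h2)
    · exact h2.1
    · exact h2.1
  have herase : (S.erase x).card = s := by
    rw [Finset.card_erase_of_mem hx, hs]
    rfl
  have hvS : v ∉ S.erase x := fun h => hv (Finset.mem_of_mem_erase h)
  have hwS : w ∉ S.erase x := fun h => hw (Finset.mem_of_mem_erase h)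
  have hstep : ∀ a ∈ X, ∀ b, G.Adj a b → b ∉ S.erase x → s(a, b) ∉ T → b ≠ x → b ∈ X := by
    intro a ha b hab hb he hbx
    have hbS : b ∉ S := fun h => hb (Finset.mem_erase.mpr ⟨hbx, h⟩)
    exact (side_step hab (not_mem_side hv ha) hbS he).mp ha
  have hor : A.ncard ≤ d / 2 ∨ B.ncard ≤ d / 2 := by omega
  rcases hor with hle | hle
  · obtain ⟨E, hE, hEc⟩ := card_image_le_ncard x A
    refine ⟨(T ∪ E).card, ?_, S.erase x, T ∪ E, hvS, hwS, ?_, herase, rfl, ?_⟩
    · refine (Finset.card_union_le T E).trans ?_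
      omega
    · intro e he
      rcases Finset.mem_union.mp he with h1 | h1
      · exact hT e h1
      · obtain ⟨y, hy, rfl⟩ := (hE e).mp h1
        exact hy.1
    · refine not_reachable_of_closed X hvX hwX ?_
      intro a ha b hab
      obtain ⟨h1, -, h3, h4⟩ := hab
      rw [Finset.mem_union, not_or] at h4
      refine hstep a ha b h1 h3 h4.1 ?_
      rintro rfl
      apply h4.2
      rw [hE]
      exact ⟨a, ⟨h1.symm, ha⟩, Sym2.eq_swap⟩
  · obtain ⟨E, hE, hEc⟩ := card_image_le_ncard x B
    refine ⟨(T ∪ E).card, ?_, S.erase x, T ∪ E, hvS, hwS, ?_, herase, rfl, ?_⟩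
    · refine (Finset.card_union_le T E).trans ?_
      omega
    · intro e he
      rcases Finset.mem_union.mp he with h1 | h1
      · exact hT e h1
      · obtain ⟨y, hy, rfl⟩ := (hE e).mp h1
        exact hy.1
    · refine not_reachable_of_closed (insert x X) (Set.mem_insert_of_mem _ hvX) ?_ ?_
      · rintro (h1 | h1)
        · exact hxw h1.symm
        · exact hwX h1
      · intro a ha b hab
        obtain ⟨h1, -, h3, h4⟩ := hab
        rw [Finset.mem_union, not_or] at h4
        rcases Set.mem_insert_iff.mp ha with rfl | ha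
        · right
          by_contra hbX
          apply h4.2
          rw [hE]
          have hbS : b ∉ S := fun h => h3 (Finset.mem_erase.mpr ⟨h1.ne', h⟩)
          exact ⟨b, ⟨h1, hbX, hbS⟩, rfl⟩
        · by_cases hbx : b = x
          · left
            exact hbx
          · right
            exact hstep a ha b h1 h3 h4.1 hbx

lemma HasPair.lam_le [Finite V] {d : ℕ}
    (hd : ∀ x, x ≠ v → x ≠ w → (G.neighborSet x).ncard ≤ d) {lam : ℕ}
    (hlam : ∀ t, HasPair G v w 0 t → lam ≤ t) :
    ∀ s t, HasPair G v w s t → lam ≤ d / 2 * s + t := by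
  intro s
  induction s with
  | zero =>
    intro t h
    have := hlam t h
    omega
  | succ s ih =>
    intro t h
    obtain ⟨t', ht', h'⟩ := h.unstep hd
    have := ih t' h'
    rw [Nat.mul_add]
    omega

lemma exists_pair_of_lam (hvw : ¬ G.Adj v w) {lam : ℕ} (h0 : HasPair G v w 0 lam) :
    ∀ k ≤ lam, ∃ s ≤ k, HasPair G v w s (lam - k) := by
  intro k
  induction k with
  | zero => exact fun _ => ⟨0, le_rfl, h0⟩
  | succ k ih =>
    intro hk
    obtain ⟨s, hs, h⟩ := ih (by omega)
    obtain ⟨s', hs', h'⟩ := h.step hvw (by omega)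
    refine ⟨s', by omega, ?_⟩
    have : lam - (k + 1) = lam - k - 1 := by omega
    rw [this]
    exact h'

lemma exists_pair_of_kap [Finite V] {d : ℕ}
    (hd : ∀ x, x ≠ v → x ≠ w → (G.neighborSet x).ncard ≤ d) :
    ∀ u k, HasPair G v w (k + u) 0 → ∃ t ≤ d / 2 * u, HasPair G v w k t := by
  have key : ∀ u k t, HasPair G v w (k + u) t → ∃ t' ≤ t + d / 2 * u, HasPair G v w k t' := by
    intro u
    induction u with
    | zero => exact fun k t h => ⟨t, by omega, h⟩
    | succ u ih =>
      intro k t h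
      obtain ⟨t', ht', h'⟩ := HasPair.unstep (s := k + u) hd h
      obtain ⟨t'', ht'', h''⟩ := ih k t' h'
      refine ⟨t'', ?_, h''⟩
      rw [Nat.mul_add]
      omega
  intro u k h
  obtain ⟨t', ht', h'⟩ := key u k 0 h
  exact ⟨t', by omega, h'⟩

lemma exists_vertices (hvw : ¬ G.Adj v w) : ∀ t s, HasPair G v w s t →
    ∃ s' ≤ s + t, HasPair G v w s' 0 := by
  intro t
  induction t with
  | zero => exact fun s h => ⟨s, le_rfl, h⟩
  | succ t ih =>
    intro s h
    obtain ⟨s', hs', h'⟩ := h.step hvw (by omega)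
    obtain ⟨s'', hs'', h''⟩ := ih s' h'
    exact ⟨s'', by omega, h''⟩

/-- Bounds for the second coordinate if all vertices other than `v, w` have degree at most `d`, in
terms of the minimum number `kap` of vertices and the minimum number `lam` of edges separating `v`
from `w`. -/
theorem bounds_of_degree [Finite V] (hne : v ≠ w) (hvw : ¬ G.Adj v w) {d : ℕ}
    (hd : ∀ x, x ≠ v → x ≠ w → (G.neighborSet x).ncard ≤ d) {kap lam : ℕ}
    (hkap : IsLeast {s | HasPair G v w s 0} kap)
    (hlam : IsLeast {t | HasPair G v w 0 t} lam) {k l : ℕ} (h : IsConnPair G v w k l) :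
    (k ≤ kap ∧ kap ≤ k + l ∧ l ≤ d / 2 * (kap - k)) ∧ k + l ≤ lam ∧ lam ≤ d / 2 * k + l := by
  have hk := le_of_isConnPair h
  have hkkap : k ≤ kap := hk kap hkap.1
  obtain ⟨F, hF, hFm⟩ := existsUnique_connPair hne hvw hk
  have hlF := (hF l).mp h
  subst hlF
  obtain ⟨s0, hs0, t0, ht0, h0⟩ := (hFm l).mpr le_rfl
  have hkl : k ≤ lam := by
    obtain ⟨s, hs, h1⟩ := exists_pair_of_lam hvw hlam.1 lam le_rfl
    rw [Nat.sub_self] at h1
    have := hk s h1
    omega
  refine ⟨⟨hkkap, ?_, ?_⟩, ?_, ?_⟩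
  · obtain ⟨s', hs', h'⟩ := exists_vertices hvw t0 s0 h0
    have := hkap.2 h'
    omega
  · have h1 : HasPair G v w (k + (kap - k)) 0 := by
      rw [Nat.add_sub_cancel' hkkap]
      exact hkap.1
    obtain ⟨t, ht, h2⟩ := exists_pair_of_kap hd (kap - k) k h1
    exact ((hFm t).mp ⟨k, le_rfl, t, le_rfl, h2⟩).trans ht
  · obtain ⟨s, hs, h1⟩ := exists_pair_of_lam hvw hlam.1 k hkl
    have := (hFm (lam - k)).mp ⟨s, hs, _, le_rfl, h1⟩
    omega
  · have h1 := HasPair.lam_le hd (fun t ht => hlam.2 ht) s0 t0 h0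
    have h2 : d / 2 * s0 ≤ d / 2 * k := Nat.mul_le_mul_left _ hs0
    omega

/-- If all vertices other than `v, w` have degree at most three, then the connectivity pairs are the
pairs with sum the minimum number of vertices separating `v` from `w`, which is also the minimum
number of edges separating `v` from `w`. -/
theorem connPair_iff_of_degree_le_three [Finite V] (hne : v ≠ w) (hvw : ¬ G.Adj v w)
    (hd : ∀ x, x ≠ v → x ≠ w → (G.neighborSet x).ncard ≤ 3) {kap : ℕ}
    (hkap : IsLeast {s | HasPair G v w s 0} kap) (k l : ℕ) :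
    IsConnPair G v w k l ↔ k + l = kap := by
  classical
  have hex : ∃ t, HasPair G v w 0 t := exists_hasPair hne
  have hlam : IsLeast {t | HasPair G v w 0 t} (Nat.find hex) :=
    ⟨Nat.find_spec hex, fun t ht => Nat.find_min' hex ht⟩
  constructor
  · intro h
    have := bounds_of_degree hne hvw hd hkap hlam h
    omega
  · intro h
    have hk : ∀ s, HasPair G v w s 0 → k ≤ s := by
      intro s hs
      have := hkap.2 hs
      omega
    obtain ⟨F, hF, -⟩ := existsUnique_connPair hne hvw hk
    have h1 := bounds_of_degree hne hvw hd hkap hlam ((hF F).mpr rfl)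
    have h2 : l = F := by omega
    exact (hF l).mpr h2

end Pool.Agent.ConnPair
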