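import Pool.Agent.Lib_helper55.ConnPair.Basic

/-!
The graph of the reduction from CLIQUE. Every vertex `i < n` of the input graph is replaced by a
grid; the grid is joined to the terminal `v` by `3 n` edges and to the terminal `w` through `2 n`
vertices of degree four; the grids of adjacent vertices are joined by an edge, and for every pair of
non-adjacent distinct vertices there is an edge from the grid of each of them to `w`.
-/

set_option autoImplicit false

namespace Pool.Agent.ConnPair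

/-- Names of the vertices of the graph: the terminals, the vertices of the grids (grid `i`, row `a`,
column `c`), and the two kinds of vertices between the grids and the terminal `w`. -/
inductive Cd : Type
  | v : Cd
  | w : Cd
  | g (i a c : ℕ) : Cd
  | b (i c : ℕ) : Cd
  | y (i c : ℕ) : Cd
  deriving DecidableEq

open Cd

/-- The number of columns of the grids. -/
def R (n : ℕ) : ℕ := 6 * n * n + 1

lemma le_R (n : ℕ) : 4 * n ≤ R n := by
  unfold R
  rcases Nat.eq_zero_or_pos n with rfl | h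
  · simp
  · have : 6 * n * 1 ≤ 6 * n * n := Nat.mul_le_mul_left _ h
    omega

/-- The names in use. -/
def ok (n : ℕ) : Cd → Prop
  | v => True
  | w => True
  | g i a c => i < n ∧ a < 2 * R n + n ∧ c < R n
  | b i c => i < n ∧ c < 2 * n
  | y i c => i < n ∧ c < 4 * n

/-- The edges, in one of the two directions. -/
def rel (n : ℕ) (A : ℕ → ℕ → Prop) : Cd → Cd → Prop
  | v, g _ a c => a = 0 ∧ c < 3 * n
  | g i a c, g i' a' c' => (i' = i ∧ a' = a + 1 ∧ c' = c) ∨ (i' = i ∧ a' = a ∧ c' = c + 1) ∨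
      (c = 0 ∧ c' = 0 ∧ a = R n + i' ∧ a' = R n + i ∧ A i i')
  | g i a c, b i' c' => i' = i ∧ a + 1 = 2 * R n + n ∧ c' = c / 2
  | b i c, y i' c' => i' = i ∧ c = c' / 2
  | y _ _, w => True
  | g i a c, w => c = 0 ∧ R n ≤ a ∧ a < R n + n ∧ a ≠ R n + i ∧ ¬ A i (a - R n)
  | _, _ => False

/-- The graph of the reduction. -/
def GG (n : ℕ) (A : ℕ → ℕ → Prop) : SimpleGraph Cd where
  Adj x y := ok n x ∧ ok n y ∧ x ≠ y ∧ (rel n A x y ∨ rel n A y x)
  symm := ⟨fun _ _ h => ⟨h.2.1, h.1, h.2.2.1.symm, h.2.2.2.symm⟩⟩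
  loopless := ⟨fun _ h => h.2.2.1 rfl⟩

section count

variable {V : Type}

lemma exists_clean (S : Finset V) (T : Finset (Sym2 V)) (P : ℕ → V → Prop)
    (hP : ∀ c c' x, P c x → P c' x → c = c') (lo m : ℕ) (hm : S.card + T.card < m) :
    ∃ c, lo ≤ c ∧ c < lo + m ∧ (∀ x ∈ S, ¬ P c x) ∧ ∀ e ∈ T, ¬ ∀ x ∈ e, P c x := by
  classical
  by_contra hcon
  push Not at hcon
  let D : ℕ → V ⊕ Sym2 V → Prop := fun c d =>
    match d with
    | Sum.inl x => P c x
    | Sum.inr e => ∀ x ∈ e, P c x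
  have h : ∀ c ∈ Finset.Ico lo (lo + m), ∃ d ∈ S.disjSum T, D c d := by
    intro c hc
    rw [Finset.mem_Ico] at hc
    by_cases h1 : ∀ x ∈ S, ¬ P c x
    · obtain ⟨e, he, h2⟩ := hcon c hc.1 hc.2 h1
      exact ⟨Sum.inr e, Finset.inr_mem_disjSum.mpr he, h2⟩
    · push Not at h1
      obtain ⟨x, hx, h2⟩ := h1
      exact ⟨Sum.inl x, Finset.inl_mem_disjSum.mpr hx, h2⟩
  have hne : Nonempty (V ⊕ Sym2 V) := by
    obtain ⟨d, -⟩ := h lo (Finset.mem_Ico.mpr ⟨le_rfl, by omega⟩)
    exact ⟨d⟩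
  choose! f hf1 hf2 using h
  have h3 := Finset.card_le_card_of_injOn f hf1 (by
    intro c hc c' hc' heq
    have h4 := hf2 c hc
    have h5 := hf2 c' hc'
    rw [← heq] at h5
    revert h4 h5
    cases f c with
    | inl x => exact fun h4 h5 => hP c c' x h4 h5
    | inr e =>
      refine Sym2.ind (fun a b => ?_) e
      intro h4 h5
      exact hP c c' a (h4 a (Sym2.mem_mk_left a b)) (h5 a (Sym2.mem_mk_left a b)))
  rw [Finset.card_disjSum, Nat.card_Ico] at h3
  omega

lemma count_le {ι κ : Type} [Fintype κ] (I : Finset ι) (S : Finset V) (T : Finset (Sym2 V))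
    (own : V → Option ι) (Sh : ι → V → Prop) (col : ι → κ)
    (h1 : ∀ P ∈ I, (∃ x ∈ S, own x = some P ∨ Sh P x) ∨
      ∃ e ∈ T, (∃ x ∈ e, own x = some P) ∧ ∀ x ∈ e, own x = some P ∨ own x = none)
    (h2 : ∀ P x, Sh P x → own x = none)
    (h3 : ∀ P ∈ I, ∀ P' ∈ I, ∀ x, Sh P x → Sh P' x → col P = col P' → P = P') :
    I.card ≤ Fintype.card κ * S.card + T.card := by
  classical
  let D : ι → (κ × V) ⊕ Sym2 V → Prop := fun P d =>
    match d with
    | Sum.inl x => x.1 = col P ∧ (own x.2 = some P ∨ Sh P x.2)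
    | Sum.inr e => (∃ x ∈ e, own x = some P) ∧ ∀ x ∈ e, own x = some P ∨ own x = none
  have h : ∀ P ∈ I, ∃ d ∈ ((Finset.univ : Finset κ) ×ˢ S).disjSum T, D P d := by
    intro P hP
    rcases h1 P hP with ⟨x, hx, h4⟩ | ⟨e, he, h4⟩
    · exact ⟨Sum.inl (col P, x), Finset.inl_mem_disjSum.mpr
        (Finset.mem_product.mpr ⟨Finset.mem_univ _, hx⟩), rfl, h4⟩
    · exact ⟨Sum.inr e, Finset.inr_mem_disjSum.mpr he, h4⟩
  rcases I.eq_empty_or_nonempty with rfl | ⟨P0, hP0⟩
  · simp
  have hne : Nonempty ((κ × V) ⊕ Sym2 V) := by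
    obtain ⟨d, -⟩ := h P0 hP0
    exact ⟨d⟩
  choose! f hf1 hf2 using h
  have h5 := Finset.card_le_card_of_injOn f hf1 (by
    intro P hP P' hP' heq
    have h6 := hf2 P hP
    have h7 := hf2 P' hP'
    rw [← heq] at h7
    revert h6 h7
    cases f P with
    | inl x =>
      rintro ⟨ha, hb⟩ ⟨hc, hd⟩
      rcases hb with hb | hb
      · rcases hd with hd | hd
        · rw [hb] at hd
          exact Option.some.inj hd
        · rw [h2 _ _ hd] at hb
          cases hb
      · rcases hd with hd | hd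
        · rw [h2 _ _ hb] at hd
          cases hd
        · exact h3 P hP P' hP' x.2 hb hd (ha.symm.trans hc)
    | inr e =>
      rintro ⟨⟨x, hx, ha⟩, -⟩ ⟨-, hb⟩
      rcases hb x hx with hb | hb
      · rw [ha] at hb
        exact Option.some.inj hb
      · rw [ha] at hb
        cases hb)
  rw [Finset.card_disjSum, Finset.card_product, Finset.card_univ] at h5
  exact h5

lemma line {G : SimpleGraph V} {S : Finset V} {T : Finset (Sym2 V)} {v : V} (f : ℕ → V) (lo : ℕ) :
    ∀ hi, lo ≤ hi → (∀ m, lo ≤ m → m < hi → G.Adj (f m) (f (m + 1))) →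
    (f lo ∈ side G S T v ↔ f hi ∈ side G S T v) ∨ (∃ m, lo ≤ m ∧ m ≤ hi ∧ f m ∈ S) ∨
      (∃ m, lo ≤ m ∧ m < hi ∧ s(f m, f (m + 1)) ∈ T) := by
  intro hi hlh
  induction hi, hlh using Nat.le_induction with
  | base => exact fun _ => Or.inl Iff.rfl
  | succ k hk ih =>
    intro hadj
    rcases ih (fun m h1 h2 => hadj m h1 (by omega)) with h | ⟨m, h1, h2, h3⟩ | ⟨m, h1, h2, h3⟩
    · by_cases hx : f k ∈ S
      · exact Or.inr (Or.inl ⟨k, hk, by omega, hx⟩)
      · by_cases hy : f (k + 1) ∈ S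
        · exact Or.inr (Or.inl ⟨k + 1, by omega, le_rfl, hy⟩)
        · by_cases he : s(f k, f (k + 1)) ∈ T
          · exact Or.inr (Or.inr ⟨k, hk, by omega, he⟩)
          · exact Or.inl (h.trans (side_step (hadj k hk (by omega)) hx hy he))
    · exact Or.inr (Or.inl ⟨m, h1, by omega, h3⟩)
    · exact Or.inr (Or.inr ⟨m, h1, by omega, h3⟩)

lemma line_clean {G : SimpleGraph V} {S : Finset V} {T : Finset (Sym2 V)} {v : V} (f : ℕ → V)
    (lo hi : ℕ) (hlh : lo ≤ hi) (hadj : ∀ m, lo ≤ m → m < hi → G.Adj (f m) (f (m + 1)))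
    (P : V → Prop) (hP : ∀ m, P (f m)) (h1 : ∀ x ∈ S, ¬ P x) (h2 : ∀ e ∈ T, ¬ ∀ x ∈ e, P x) :
    f lo ∈ side G S T v ↔ f hi ∈ side G S T v := by
  rcases line (G := G) (S := S) (T := T) (v := v) f lo hi hlh hadj with h | ⟨m, -, -, h⟩ |
    ⟨m, -, -, h⟩
  · exact h
  · exact absurd (hP m) (h1 _ h)
  · exfalso
    apply h2 _ h
    intro x hx
    rcases Sym2.mem_iff.mp hx with rfl | rfl
    · exact hP _
    · exact hP _

end count

section adj

variable {n : ℕ} {A : ℕ → ℕ → Prop}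

lemma adj_v {i c : ℕ} (hi : i < n) (hc : c < 3 * n) (hcR : c < R n) : (GG n A).Adj v (g i 0 c) :=
  ⟨trivial, ⟨hi, by unfold R; omega, hcR⟩, by simp, Or.inl ⟨rfl, hc⟩⟩

lemma adj_down {i a c : ℕ} (hi : i < n) (ha : a + 1 < 2 * R n + n) (hc : c < R n) :
    (GG n A).Adj (g i a c) (g i (a + 1) c) :=
  ⟨⟨hi, by omega, hc⟩, ⟨hi, ha, hc⟩, by simp, Or.inl (Or.inl ⟨rfl, rfl, rfl⟩)⟩

lemma adj_right {i a c : ℕ} (hi : i < n) (ha : a < 2 * R n + n) (hc : c + 1 < R n) :
    (GG n A).Adj (g i a c) (g i a (c + 1)) :=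
  ⟨⟨hi, ha, by omega⟩, ⟨hi, ha, hc⟩, by simp, Or.inl (Or.inr (Or.inl ⟨rfl, rfl, rfl⟩))⟩

lemma adj_b {i c : ℕ} (hi : i < n) (hc : c < 4 * n) (hcR : c < R n) :
    (GG n A).Adj (g i (2 * R n + n - 1) c) (b i (c / 2)) :=
  ⟨⟨hi, by unfold R; omega, hcR⟩, ⟨hi, by omega⟩, by simp,
    Or.inl ⟨rfl, by unfold R; omega, rfl⟩⟩

lemma adj_y {i c : ℕ} (hi : i < n) (hc : c < 4 * n) : (GG n A).Adj (b i (c / 2)) (y i c) :=
  ⟨⟨hi, by omega⟩, ⟨hi, hc⟩, by simp, Or.inl ⟨rfl, rfl⟩⟩

lemma adj_w {i c : ℕ} (hi : i < n) (hc : c < 4 * n) : (GG n A).Adj (y i c) w :=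
  ⟨⟨hi, hc⟩, trivial, by simp, Or.inl trivial⟩

lemma adj_A {i j : ℕ} (hi : i < n) (hj : j < n) (hij : j ≠ i) (h : A i j) :
    (GG n A).Adj (g i (R n + j) 0) (g j (R n + i) 0) := by
  refine ⟨⟨hi, by omega, by unfold R; omega⟩, ⟨hj, by omega, by unfold R; omega⟩, ?_,
    Or.inl (Or.inr (Or.inr ⟨rfl, rfl, rfl, rfl, h⟩))⟩
  intro h1
  injection h1 with h2
  exact hij h2.symm

lemma adj_notA {i j : ℕ} (hi : i < n) (hj : j < n) (hij : j ≠ i) (h : ¬ A i j) :
    (GG n A).Adj (g i (R n + j) 0) w := by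
  refine ⟨⟨hi, by omega, by unfold R; omega⟩, trivial, by simp,
    Or.inl ⟨rfl, by omega, by omega, by omega, ?_⟩⟩
  rwa [Nat.add_sub_cancel_left]

end adj

open Classical in
/-- The pairs `(i, j)` which cost an edge if `W` is the set of grids on the side of `v`. -/
noncomputable def JJ (n : ℕ) (A : ℕ → ℕ → Prop) (W : Finset ℕ) : Finset (ℕ × ℕ) :=
  (W ×ˢ Finset.range n).filter (fun p => p.2 ≠ p.1 ∧ ¬ (p.2 ∈ W ∧ A p.1 p.2))

open Classical in
/-- The owner of a vertex. -/
noncomputable def own (n : ℕ) (W : Finset ℕ) : Cd → Option ((ℕ × ℕ) ⊕ ((ℕ × ℕ) ⊕ (ℕ × ℕ)))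
  | g i a c => if a < R n then some (Sum.inl (i, c)) else
      if a < R n + n then some (Sum.inr (Sum.inr (if i ∈ W then (i, a - R n) else (a - R n, i))))
      else some (Sum.inr (Sum.inl (i, c)))
  | y i c => some (Sum.inr (Sum.inl (i, c)))
  | _ => none

lemma own_top {n : ℕ} {W : Finset ℕ} {i a c : ℕ} (h : a < R n) :
    own n W (g i a c) = some (Sum.inl (i, c)) := by
  simp [own, h]

lemma own_bot {n : ℕ} {W : Finset ℕ} {i a c : ℕ} (h : R n + n ≤ a) :
    own n W (g i a c) = some (Sum.inr (Sum.inl (i, c))) := by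
  have h1 : ¬ a < R n := by omega
  have h2 : ¬ a < R n + n := by omega
  simp [own, h1, h2]

lemma own_mid_mem {n : ℕ} {W : Finset ℕ} {i j c : ℕ} (hj : j < n) (hi : i ∈ W) :
    own n W (g i (R n + j) c) = some (Sum.inr (Sum.inr (i, j))) := by
  simp [own, hj, hi]

lemma own_mid_not_mem {n : ℕ} {W : Finset ℕ} {i j c : ℕ} (hj : j < n) (hi : i ∉ W) :
    own n W (g i (R n + j) c) = some (Sum.inr (Sum.inr (j, i))) := by
  simp [own, hj, hi]

/-- The vertices between the grids and `w` are shared by two paths. -/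
def Sh (P : (ℕ × ℕ) ⊕ ((ℕ × ℕ) ⊕ (ℕ × ℕ))) (x : Cd) : Prop :=
  ∃ i c, P = Sum.inr (Sum.inl (i, c)) ∧ x = b i (c / 2)

theorem defects {n : ℕ} {A : ℕ → ℕ → Prop} (S : Finset Cd) (T : Finset (Sym2 Cd)) (hw : w ∉ S)
    (hv : v ∉ S) (hr : ¬ (del (GG n A) S T).Reachable v w) (hcard : S.card + T.card < R n) :
    ∃ W ⊆ Finset.range n,
      ∀ P ∈ ((Finset.range n \ W) ×ˢ Finset.range (3 * n)).disjSum
          ((W ×ˢ Finset.range (4 * n)).disjSum (JJ n A W)),
        (∃ x ∈ S, own n W x = some P ∨ Sh P x) ∨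
        ∃ e ∈ T, (∃ x ∈ e, own n W x = some P) ∧ ∀ x ∈ e, own n W x = some P ∨ own n W x = none := by
  classical
  set X := side (GG n A) S T v with hX
  have hvX : v ∈ X := SimpleGraph.Reachable.refl v
  have hwX : w ∉ X := hr
  -- clean lines
  have hcol : ∀ i, i < n → ∃ c < R n, (∀ x ∈ S, ¬ ∃ a, x = g i a c) ∧
      ∀ e ∈ T, ¬ ∀ x ∈ e, ∃ a, x = g i a c := by
    intro i _
    obtain ⟨c, -, h2, h3, h4⟩ := exists_clean S T (fun c x => ∃ a, x = g i a c) (by
      rintro c c' x ⟨a, rfl⟩ ⟨a', h⟩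
      injection h) 0 (R n) hcard
    exact ⟨c, by omega, h3, h4⟩
  have hrow1 : ∀ i, i < n → ∃ a < R n, (∀ x ∈ S, ¬ ∃ c, x = g i a c) ∧
      ∀ e ∈ T, ¬ ∀ x ∈ e, ∃ c, x = g i a c := by
    intro i _
    obtain ⟨c, -, h2, h3, h4⟩ := exists_clean S T (fun a x => ∃ c, x = g i a c) (by
      rintro c c' x ⟨a, rfl⟩ ⟨a', h⟩
      injection h) 0 (R n) hcard
    exact ⟨c, by omega, h3, h4⟩
  have hrow2 : ∀ i, i < n → ∃ a, (R n + n ≤ a ∧ a < 2 * R n + n) ∧
      (∀ x ∈ S, ¬ ∃ c, x = g i a c) ∧ ∀ e ∈ T, ¬ ∀ x ∈ e, ∃ c, x = g i a c := by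
    intro i _
    obtain ⟨c, h1, h2, h3, h4⟩ := exists_clean S T (fun a x => ∃ c, x = g i a c) (by
      rintro c c' x ⟨a, rfl⟩ ⟨a', h⟩
      injection h) (R n + n) (R n) hcard
    exact ⟨c, ⟨h1, by omega⟩, h3, h4⟩
  choose! γ hγ hγS hγT using hcol
  choose! ρ hρ hρS hρT using hrow1
  choose! σ hσ hσS hσT using hrow2
  -- the lines have the same label
  have hcolX : ∀ i, i < n → ∀ a, a < 2 * R n + n → (g i 0 (γ i) ∈ X ↔ g i a (γ i) ∈ X) := by
    intro i hi a ha
    exact line_clean (fun m => g i m (γ i)) 0 a (Nat.zero_le _)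
      (fun m _ hm => adj_down hi (by omega) (hγ i hi)) (fun x => ∃ a, x = g i a (γ i))
      (fun m => ⟨m, rfl⟩) (hγS i hi) (hγT i hi)
  have hrow : ∀ i, i < n → ∀ a, a < 2 * R n + n → (∀ x ∈ S, ¬ ∃ c, x = g i a c) →
      (∀ e ∈ T, ¬ ∀ x ∈ e, ∃ c, x = g i a c) → ∀ c, c < R n →
      (g i 0 (γ i) ∈ X ↔ g i a c ∈ X) := by
    intro i hi a ha h1 h2 c hc
    have h3 : ∀ c, c < R n → (g i a 0 ∈ X ↔ g i a c ∈ X) := by
      intro c hc
      exact line_clean (fun m => g i a m) 0 c (Nat.zero_le _)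
        (fun m _ hm => adj_right hi ha (by omega)) (fun x => ∃ c, x = g i a c)
        (fun m => ⟨m, rfl⟩) h1 h2
    rw [hcolX i hi a ha, ← h3 _ (hγ i hi), h3 _ hc]
  have hRn : 4 * n ≤ R n := le_R n
  refine ⟨(Finset.range n).filter (fun i => g i 0 (γ i) ∈ X), Finset.filter_subset _ _, ?_⟩
  set W := (Finset.range n).filter (fun i => g i 0 (γ i) ∈ X) with hW
  have hWmem : ∀ i, i ∈ W ↔ i < n ∧ g i 0 (γ i) ∈ X := by
    intro i
    rw [hW, Finset.mem_filter, Finset.mem_range]
  have hownv : own n W v = none := rfl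
  have hownw : own n W w = none := rfl
  have hownb : ∀ i c, own n W (b i c) = none := fun _ _ => rfl
  have hedge : ∀ (x y : Cd) (P : (ℕ × ℕ) ⊕ ((ℕ × ℕ) ⊕ (ℕ × ℕ))), s(x, y) ∈ T →
      own n W x = some P → (own n W y = some P ∨ own n W y = none) →
      ∃ e ∈ T, (∃ x ∈ e, own n W x = some P) ∧ ∀ x ∈ e, own n W x = some P ∨ own n W x = none := by
    intro x y P he hx hy
    refine ⟨s(x, y), he, ⟨x, Sym2.mem_mk_left x y, hx⟩, ?_⟩
    intro z hz
    rcases Sym2.mem_iff.mp hz with rfl | rfl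
    · exact Or.inl hx
    · exact hy
  intro P hP
  rcases P with ⟨i, c⟩ | ⟨i, c⟩ | ⟨i, j⟩
  · -- columns at the top
    rw [Finset.inl_mem_disjSum, Finset.mem_product, Finset.mem_sdiff, Finset.mem_range,
      Finset.mem_range] at hP
    obtain ⟨⟨hi, hiW⟩, hc⟩ := hP
    simp only at hi hiW hc
    have hcR : c < R n := by omega
    have h1 : g i (ρ i) c ∉ X := by
      intro h
      apply hiW
      rw [hWmem]
      exact ⟨hi, (hrow i hi (ρ i) (by have := hρ i hi; omega) (hρS i hi) (hρT i hi) c hcR).mpr h⟩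
    have hρi := hρ i hi
    rcases line (G := GG n A) (S := S) (T := T) (v := v) (fun m => g i m c) 0 (ρ i) (Nat.zero_le _)
      (fun m _ hm => adj_down hi (by omega) hcR) with h | ⟨m, -, h2, h3⟩ | ⟨m, -, h2, h3⟩
    · by_cases h4 : g i 0 c ∈ S
      · exact Or.inl ⟨_, h4, Or.inl (own_top (by omega))⟩
      · by_cases h5 : s(g i 0 c, v) ∈ T
        · exact Or.inr (hedge _ _ _ h5 (own_top (by omega)) (Or.inr hownv))
        · exfalso
          apply h1
          rw [← hX] at h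
          rw [← h]
          exact (side_step (adj_v hi hc hcR).symm h4 hv h5).mpr hvX
    · exact Or.inl ⟨_, h3, Or.inl (own_top (by omega))⟩
    · exact Or.inr (hedge _ _ _ h3 (own_top (by omega)) (Or.inl (own_top (by omega))))
  · -- columns at the bottom
    rw [Finset.inr_mem_disjSum, Finset.inl_mem_disjSum, Finset.mem_product,
      Finset.mem_range] at hP
    obtain ⟨hiW, hc⟩ := hP
    simp only at hiW hc
    obtain ⟨hi, hiX⟩ := (hWmem i).mp hiW
    have hcR : c < R n := by omega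
    obtain ⟨hσ1, hσ2⟩ := hσ i hi
    have h1 : g i (σ i) c ∈ X := (hrow i hi (σ i) hσ2 (hσS i hi) (hσT i hi) c hcR).mp hiX
    have hR0 : 0 < R n := by unfold R; omega
    rcases line (G := GG n A) (S := S) (T := T) (v := v) (fun m => g i m c) (σ i)
      (2 * R n + n - 1) (by omega)
      (fun m _ hm => adj_down hi (by omega) hcR) with h | ⟨m, h2, h2', h3⟩ | ⟨m, h2, h2', h3⟩
    · have h4 : g i (2 * R n + n - 1) c ∈ X := h.mp h1
      have h5 : g i (2 * R n + n - 1) c ∉ S := not_mem_side hv h4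
      have ho : own n W (g i (2 * R n + n - 1) c) = some (Sum.inr (Sum.inl (i, c))) :=
        own_bot (by omega)
      by_cases h6 : b i (c / 2) ∈ S
      · exact Or.inl ⟨_, h6, Or.inr ⟨i, c, rfl, rfl⟩⟩
      · by_cases h7 : s(g i (2 * R n + n - 1) c, b i (c / 2)) ∈ T
        · exact Or.inr (hedge _ _ _ h7 ho (Or.inr (hownb _ _)))
        · have h8 : b i (c / 2) ∈ X := (side_step (adj_b hi hc hcR) h5 h6 h7).mp h4
          by_cases h9 : y i c ∈ S
          · exact Or.inl ⟨_, h9, Or.inl rfl⟩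
          · by_cases h10 : s(y i c, b i (c / 2)) ∈ T
            · exact Or.inr (hedge _ _ _ h10 rfl (Or.inr (hownb _ _)))
            · have h11 : y i c ∈ X := (side_step (adj_y hi hc).symm h9 h6 h10).mpr h8
              by_cases h12 : s(y i c, w) ∈ T
              · exact Or.inr (hedge _ _ _ h12 rfl (Or.inr hownw))
              · exact absurd ((side_step (adj_w hi hc) h9 hw h12).mp h11) hwX
    · exact Or.inl ⟨_, h3, Or.inl (own_bot (by omega))⟩
    · exact Or.inr (hedge _ _ _ h3 (own_bot (by omega)) (Or.inl (own_bot (by omega))))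
  · -- rows
    rw [Finset.inr_mem_disjSum, Finset.inr_mem_disjSum, JJ, Finset.mem_filter, Finset.mem_product,
      Finset.mem_range] at hP
    obtain ⟨⟨hiW, hj⟩, hji, hnot⟩ := hP
    simp only at hiW hj hji hnot
    obtain ⟨hi, hiX⟩ := (hWmem i).mp hiW
    have hR0 : 0 < R n := by unfold R; omega
    have h1 : g i (R n + j) (γ i) ∈ X := (hcolX i hi _ (by omega)).mp hiX
    have hγi := hγ i hi
    have ho : ∀ m, own n W (g i (R n + j) m) = some (Sum.inr (Sum.inr (i, j))) :=
      fun m => own_mid_mem hj hiW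
    rcases line (G := GG n A) (S := S) (T := T) (v := v) (fun m => g i (R n + j) m) 0 (γ i)
      (Nat.zero_le _)
      (fun m _ hm => adj_right hi (by omega) (by omega)) with h | ⟨m, -, -, h3⟩ | ⟨m, -, -, h3⟩
    · have h4 : g i (R n + j) 0 ∈ X := h.mpr h1
      have h5 : g i (R n + j) 0 ∉ S := not_mem_side hv h4
      by_cases hA : A i j
      · have hjW : j ∉ W := fun h => hnot ⟨h, hA⟩
        have hγj := hγ j hj
        have ho' : ∀ m, own n W (g j (R n + i) m) = some (Sum.inr (Sum.inr (i, j))) :=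
          fun m => own_mid_not_mem hi hjW
        have h6 : g j (R n + i) (γ j) ∉ X := by
          intro h7
          apply hjW
          rw [hWmem]
          exact ⟨hj, (hcolX j hj _ (by omega)).mpr h7⟩
        rcases line (G := GG n A) (S := S) (T := T) (v := v) (fun m => g j (R n + i) m) 0 (γ j)
          (Nat.zero_le _)
          (fun m _ hm => adj_right hj (by omega) (by omega)) with h | ⟨m, -, -, h3⟩ | ⟨m, -, -, h3⟩
        · by_cases h7 : g j (R n + i) 0 ∈ S
          · exact Or.inl ⟨_, h7, Or.inl (ho' _)⟩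
          · by_cases h8 : s(g i (R n + j) 0, g j (R n + i) 0) ∈ T
            · exact Or.inr (hedge _ _ _ h8 (ho _) (Or.inl (ho' _)))
            · exfalso
              apply h6
              exact h.mp ((side_step (adj_A hi hj hji hA) h5 h7 h8).mp h4)
        · exact Or.inl ⟨_, h3, Or.inl (ho' _)⟩
        · exact Or.inr (hedge _ _ _ h3 (ho' _) (Or.inl (ho' _)))
      · by_cases h8 : s(g i (R n + j) 0, w) ∈ T
        · exact Or.inr (hedge _ _ _ h8 (ho _) (Or.inr hownw))
        · exact absurd ((side_step (adj_notA hi hj hji hA) h5 hw h8).mp h4) hwX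
    · exact Or.inl ⟨_, h3, Or.inl (ho _)⟩
    · exact Or.inr (hedge _ _ _ h3 (ho _) (Or.inl (ho _)))

/-- The two lower bounds. -/
theorem lower {n : ℕ} {A : ℕ → ℕ → Prop} {s t : ℕ} (h : HasPair (GG n A) v w s t)
    (hst : s + t < R n) :
    ∃ W ⊆ Finset.range n, 3 * n * (n - W.card) + 4 * n * W.card + (JJ n A W).card ≤ 2 * s + t ∧
      3 * n * (n - W.card) + 2 * n * W.card + (JJ n A W).card ≤ s + t := by
  classical
  obtain ⟨S, T, hv, hw, -, rfl, rfl, hr⟩ := h
  obtain ⟨W, hW, hdef⟩ := defects S T hw hv hr hst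
  refine ⟨W, hW, ?_, ?_⟩
  · have h1 := count_le _ S T (own n W) Sh
      (fun P => (match P with
        | Sum.inr (Sum.inl (_, c)) => decide (c % 2 = 1)
        | _ => false : Bool)) hdef
      (by
        rintro P x ⟨i, c, rfl, rfl⟩
        rfl)
      (by
        rintro P - P' - x ⟨i, c, rfl, rfl⟩ ⟨i', c', rfl, h2⟩ h3
        injection h2 with h4 h5
        simp only [decide_eq_decide] at h3
        subst h4
        have : c = c' := by omega
        rw [this])
    rw [Finset.card_disjSum, Finset.card_disjSum, Finset.card_product, Finset.card_product,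
      Finset.card_sdiff_of_subset hW, Finset.card_range, Finset.card_range, Finset.card_range,
      Fintype.card_bool] at h1
    have e1 : (n - W.card) * (3 * n) = 3 * n * (n - W.card) := Nat.mul_comm _ _
    have e2 : W.card * (4 * n) = 4 * n * W.card := Nat.mul_comm _ _
    omega
  · have h1 := count_le (((Finset.range n \ W) ×ˢ Finset.range (3 * n)).disjSum
          ((W ×ˢ (Finset.range (2 * n)).image (fun c => 2 * c)).disjSum (JJ n A W))) S T
      (own n W) Sh (fun _ => ()) (by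
        intro P hP
        apply hdef
        revert hP
        rcases P with ⟨i, c⟩ | ⟨i, c⟩ | ⟨i, j⟩
        · intro hP
          rw [Finset.inl_mem_disjSum] at hP ⊢
          exact hP
        · intro hP
          rw [Finset.inr_mem_disjSum, Finset.inl_mem_disjSum, Finset.mem_product,
            Finset.mem_image] at hP
          rw [Finset.inr_mem_disjSum, Finset.inl_mem_disjSum, Finset.mem_product,
            Finset.mem_range]
          obtain ⟨h2, c', h3, h4⟩ := hP
          rw [Finset.mem_range] at h3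
          refine ⟨h2, ?_⟩
          simp only at h4 ⊢
          omega
        · intro hP
          rw [Finset.inr_mem_disjSum, Finset.inr_mem_disjSum] at hP ⊢
          exact hP)
      (by
        rintro P x ⟨i, c, rfl, rfl⟩
        rfl)
      (by
        rintro P hP P' hP' x ⟨i, c, rfl, rfl⟩ ⟨i', c', rfl, h2⟩ -
        injection h2 with h4 h5
        rw [Finset.inr_mem_disjSum, Finset.inl_mem_disjSum, Finset.mem_product,
            Finset.mem_image] at hP hP'
        obtain ⟨-, d, -, h6⟩ := hP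
        obtain ⟨-, d', -, h7⟩ := hP'
        simp only at h6 h7
        subst h4
        have : c = c' := by omega
        rw [this])
    rw [Finset.card_disjSum, Finset.card_disjSum, Finset.card_product, Finset.card_product,
      Finset.card_sdiff_of_subset hW, Finset.card_range, Finset.card_range,
      Finset.card_image_of_injective _ (fun a b hab => by simpa using hab), Finset.card_range,
      Fintype.card_unit] at h1
    have e1 : (n - W.card) * (3 * n) = 3 * n * (n - W.card) := Nat.mul_comm _ _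
    have e2 : W.card * (2 * n) = 2 * n * W.card := Nat.mul_comm _ _
    omega

end Pool.Agent.ConnPair
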