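import Pool.Agent.Lib_helper55.ConnPair.Main
import Pool.Agent.Lib_helper79.Poly.NP

/-!
The decision problem is in NP.
-/

set_option autoImplicit false

namespace Pool.Agent.ConnPair

open List Pool.Agent.Poly

/-- the test for a pair of vertices: the first is on the side of `v`, the second neither on this side
nor deleted, and they are adjacent -/
def tst (L : List (List ℕ)) (c : List Bool) (x z : ℕ) : Bool :=
  (c.getD (L.length + x) false && !(c.getD x false)) &&
    ((!(c.getD (L.length + z) false) && !(c.getD z false)) &&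
      (!(decide (x = z)) && adjT L x z))

/-- the pairs passing the test -/
def prs (L : List (List ℕ)) (c : List Bool) : List (ℕ × ℕ) :=
  (range L.length).flatMap fun x =>
    ((range L.length).filter fun z => tst L c x z).map fun z => (x, z)

/-- the test of a certificate -/
def verify (p : (List (List ℕ) × ℕ × ℕ × ℕ × ℕ) × List Bool) : Bool :=
  (decide (p.1.2.1 < p.1.1.length) && decide (p.1.2.2.1 < p.1.1.length)) &&
  ((!(p.2.getD p.1.2.1 false) && !(p.2.getD p.1.2.2.1 false)) &&
  ((p.2.getD (p.1.1.length + p.1.2.1) false && !(p.2.getD (p.1.1.length + p.1.2.2.1) false)) &&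
  (decide (((range p.1.1.length).filter fun x => p.2.getD x false).length ≤ p.1.2.2.2.1) &&
  decide ((prs p.1.1 p.2).length ≤ p.1.2.2.2.2))))

section poly

variable {α : Type} [Rep α]

lemma pt_tst {L : α → List (List ℕ)} {c : α → List Bool} {x z : α → ℕ} (hL : PolyTime L)
    (hc : PolyTime c) (hx : PolyTime x) (hz : PolyTime z) :
    PolyTime (fun a => tst (L a) (c a) (x a) (z a)) := by
  have h1 : PolyTime fun a => (c a).getD ((L a).length + x a) false :=
    PolyTime.getD hc (by fun_prop) (by fun_prop)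
  have h2 : PolyTime fun a => (c a).getD (x a) false := PolyTime.getD hc hx (by fun_prop)
  have h3 : PolyTime fun a => (c a).getD ((L a).length + z a) false :=
    PolyTime.getD hc (by fun_prop) (by fun_prop)
  have h4 : PolyTime fun a => (c a).getD (z a) false := PolyTime.getD hc hz (by fun_prop)
  unfold tst
  exact PolyTime.and (PolyTime.and h1 h2.not) (PolyTime.and (PolyTime.and h3.not h4.not)
    (PolyTime.and (PolyTime.not (PolyTime.natEq hx hz)) (pt_adjT hL hx hz)))

lemma pt_prs {L : α → List (List ℕ)} {c : α → List Bool} (hL : PolyTime L)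
    (hc : PolyTime c) : PolyTime (fun a => prs (L a) (c a)) := by
  unfold prs
  apply PolyTime.flatMap (by fun_prop)
  apply PolyTime.map
  · apply PolyTime.filter (by fun_prop)
    exact pt_tst (by fun_prop) (by fun_prop) (by fun_prop) (by fun_prop)
  · fun_prop

lemma pt_verify : PolyTime verify := by
  unfold verify
  have hp := pt_prs (α := (List (List ℕ) × ℕ × ℕ × ℕ × ℕ) × List Bool) (L := fun p => p.1.1)
    (c := fun p => p.2) (by fun_prop) (by fun_prop)
  refine PolyTime.and (PolyTime.and ?_ ?_) (PolyTime.and (PolyTime.and ?_ ?_)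
    (PolyTime.and (PolyTime.and ?_ ?_) (PolyTime.and ?_ ?_)))
  · exact PolyTime.lt (by fun_prop) (by fun_prop)
  · exact PolyTime.lt (by fun_prop) (by fun_prop)
  · exact PolyTime.not (PolyTime.getD (by fun_prop) (by fun_prop) (by fun_prop))
  · exact PolyTime.not (PolyTime.getD (by fun_prop) (by fun_prop) (by fun_prop))
  · exact PolyTime.getD (by fun_prop) (by fun_prop) (by fun_prop)
  · exact PolyTime.not (PolyTime.getD (by fun_prop) (by fun_prop) (by fun_prop))
  · refine PolyTime.le (PolyTime.length ?_) (by fun_prop)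
    apply PolyTime.filter (by fun_prop)
    exact PolyTime.getD (by fun_prop) (by fun_prop) (by fun_prop)
  · exact PolyTime.le (by fun_prop) (by fun_prop)

end poly

lemma mem_prs (L : List (List ℕ)) (c : List Bool) (x z : ℕ) :
    (x, z) ∈ prs L c ↔ x < L.length ∧ z < L.length ∧ tst L c x z = true := by
  unfold prs
  simp only [mem_flatMap, mem_map, mem_filter, mem_range, Prod.mk.injEq]
  constructor
  · rintro ⟨x', hx, z', ⟨hz, ht⟩, rfl, rfl⟩
    exact ⟨hx, hz, ht⟩
  · rintro ⟨hx, hz, ht⟩
    exact ⟨x, hx, z, ⟨hz, ht⟩, rfl, rfl⟩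

lemma nodup_prs (L : List (List ℕ)) (c : List Bool) : (prs L c).Nodup := by
  unfold prs
  refine nodup_flatMap.mpr ⟨?_, ?_⟩
  · intro i _
    exact (nodup_range.filter _).map (fun c c' h => by simpa using h)
  · refine nodup_range.imp_of_mem ?_
    intro a a' _ _ hne
    change Disjoint _ _
    intro x hx hx'
    simp only [mem_map] at hx hx'
    obtain ⟨c, -, rfl⟩ := hx
    obtain ⟨c', -, h⟩ := hx'
    simp only [Prod.mk.injEq] at h
    exact hne h.1.symm

lemma card_filter_range (N : ℕ) (P : ℕ → Bool) :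
    ((range N).filter P).length = (Finset.univ.filter fun x : Fin N => P x = true).card := by
  classical
  rw [← Finset.card_map Fin.valEmbedding, ← List.toFinset_card_of_nodup (nodup_range.filter _)]
  congr 1
  ext i
  simp only [mem_toFinset, mem_filter, mem_range, Finset.mem_map, Finset.mem_filter,
    Finset.mem_univ, true_and]
  constructor
  · rintro ⟨hi, hP⟩
    exact ⟨⟨i, hi⟩, hP, rfl⟩
  · rintro ⟨x, hx, rfl⟩
    exact ⟨x.2, hx⟩

lemma tst_iff (L : List (List ℕ)) (c : List Bool) (x z : Fin L.length) :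
    tst L c x z = true ↔ (c.getD (L.length + x) false = true ∧ c.getD x false = false) ∧
      (c.getD (L.length + z) false = false ∧ c.getD z false = false) ∧ (graphOf L).Adj x z := by
  rw [adjT_iff]
  unfold tst
  simp only [Bool.and_eq_true, Bool.not_eq_true', decide_eq_false_iff_not, ne_eq, Fin.ext_iff]

lemma verify_sound (L : List (List ℕ)) (v w k m : ℕ) (c : List Bool)
    (h : verify ((L, v, w, k, m), c) = true) : MixedCut (L, v, w, k, m) := by
  classical
  unfold verify at h
  simp only [Bool.and_eq_true, Bool.not_eq_true', decide_eq_true_eq] at h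
  obtain ⟨⟨hv, hw⟩, ⟨hSv, hSw⟩, ⟨hXv, hXw⟩, hk, hm⟩ := h
  rw [card_filter_range] at hk
  set S : Finset (Fin L.length) := Finset.univ.filter fun x => c.getD x false = true with hS
  have hmemS : ∀ x : Fin L.length, x ∉ S ↔ c.getD x false = false := by
    intro x
    rw [hS, Finset.mem_filter]
    simp
  set f : ℕ × ℕ → Sym2 (Fin L.length) := fun p =>
    if h : p.1 < L.length ∧ p.2 < L.length then s(⟨p.1, h.1⟩, ⟨p.2, h.2⟩) else s(⟨v, hv⟩, ⟨v, hv⟩)
    with hf
  refine ⟨hv, hw, S.card, hk, ((prs L c).toFinset.image f).card, ?_, S,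
    (prs L c).toFinset.image f, ?_, ?_, ?_, rfl, rfl, ?_⟩
  · exact (Finset.card_image_le.trans (List.toFinset_card_le _)).trans hm
  · rw [hmemS]
    exact hSv
  · rw [hmemS]
    exact hSw
  · intro e he
    obtain ⟨⟨x, z⟩, h1, rfl⟩ := Finset.mem_image.mp he
    rw [mem_toFinset, mem_prs] at h1
    obtain ⟨hx, hz, ht⟩ := h1
    rw [hf]
    simp only
    rw [dif_pos ⟨hx, hz⟩]
    exact ((tst_iff L c ⟨x, hx⟩ ⟨z, hz⟩).mp ht).2.2
  · refine not_reachable_of_closed {x : Fin L.length | c.getD (L.length + x) false = true} hXv ?_ ?_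
    · intro h1
      change c.getD (L.length + w) false = true at h1
      rw [hXw] at h1
      cases h1
    · rintro x hx z ⟨h1, h2, h3, h4⟩
      change c.getD (L.length + x) false = true at hx
      change c.getD (L.length + z) false = true
      by_contra hcon
      rw [Bool.not_eq_true] at hcon
      apply h4
      rw [Finset.mem_image]
      refine ⟨(x, z), ?_, ?_⟩
      · rw [mem_toFinset, mem_prs]
        exact ⟨x.2, z.2, (tst_iff L c x z).mpr ⟨⟨hx, (hmemS x).mp h2⟩,
          ⟨hcon, (hmemS z).mp h3⟩, h1⟩⟩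
      · rw [hf]
        simp only
        rw [dif_pos ⟨x.2, z.2⟩]

lemma verify_complete (L : List (List ℕ)) (v w k m : ℕ) (h : MixedCut (L, v, w, k, m)) :
    ∃ c : List Bool, c.length = 2 * L.length ∧ verify ((L, v, w, k, m), c) = true := by
  classical
  obtain ⟨hv, hw, s, hs, t, ht, S, T, hSv, hSw, hT, rfl, rfl, hr⟩ := h
  simp only at hv hw hs ht hSv hSw hr hT
  set X := side (graphOf L) S T ⟨v, hv⟩ with hX
  have hvX : (⟨v, hv⟩ : Fin L.length) ∈ X := SimpleGraph.Reachable.refl _
  set c : List Bool := (range (2 * L.length)).map fun p =>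
    if h : p < L.length then decide (⟨p, h⟩ ∈ S) else
      if h' : p - L.length < L.length then decide (⟨p - L.length, h'⟩ ∈ X) else false with hc
  have hclen : c.length = 2 * L.length := by
    rw [hc, length_map, length_range]
  have h1 : ∀ x : Fin L.length, c.getD x false = decide (x ∈ S) := by
    intro x
    rw [getD_eq_getElem _ _ (by rw [hclen]; omega)]
    simp only [hc, getElem_map, getElem_range]
    rw [dif_pos x.2]
  have h2 : ∀ x : Fin L.length, c.getD (L.length + x) false = decide (x ∈ X) := by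
    intro x
    rw [getD_eq_getElem _ _ (by rw [hclen]; omega)]
    simp only [hc, getElem_map, getElem_range]
    have h3 : ¬ (L.length + (x : ℕ) < L.length) := by omega
    have h4 : L.length + (x : ℕ) - L.length = x := by omega
    rw [dif_neg h3]
    simp only [h4]
    rw [dif_pos x.2]
  refine ⟨c, hclen, ?_⟩
  unfold verify
  simp only [Bool.and_eq_true, Bool.not_eq_true', decide_eq_true_eq]
  refine ⟨⟨hv, hw⟩, ⟨?_, ?_⟩, ⟨?_, ?_⟩, ?_, ?_⟩
  · rw [h1 ⟨v, hv⟩]
    simpa using hSv
  · rw [h1 ⟨w, hw⟩]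
    simpa using hSw
  · rw [h2 ⟨v, hv⟩]
    simpa using hvX
  · rw [h2 ⟨w, hw⟩, decide_eq_false_iff_not]
    exact hr
  · rw [card_filter_range]
    refine le_trans (Finset.card_le_card ?_) hs
    intro x hx
    rw [Finset.mem_filter, h1] at hx
    simpa using hx.2
  · refine le_trans ?_ ht
    rw [← List.toFinset_card_of_nodup (nodup_prs L c)]
    set f : ℕ × ℕ → Sym2 (Fin L.length) := fun p =>
      if h : p.1 < L.length ∧ p.2 < L.length then s(⟨p.1, h.1⟩, ⟨p.2, h.2⟩)
      else s(⟨v, hv⟩, ⟨v, hv⟩) with hf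
    have hkey : ∀ x z, (x, z) ∈ prs L c → ∃ (hx : x < L.length) (hz : z < L.length),
        f (x, z) = s(⟨x, hx⟩, ⟨z, hz⟩) ∧ (⟨x, hx⟩ : Fin L.length) ∈ X ∧
        (⟨z, hz⟩ : Fin L.length) ∉ X ∧ f (x, z) ∈ T := by
      intro x z hxz
      rw [mem_prs] at hxz
      obtain ⟨hx, hz, htst⟩ := hxz
      obtain ⟨⟨a1, a2⟩, ⟨a3, a4⟩, a5⟩ := (tst_iff L c ⟨x, hx⟩ ⟨z, hz⟩).mp htst
      rw [h2, decide_eq_true_eq] at a1
      rw [h1, decide_eq_false_iff_not] at a2 a4
      rw [h2, decide_eq_false_iff_not] at a3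
      have hfx : f (x, z) = s(⟨x, hx⟩, ⟨z, hz⟩) := by
        rw [hf]
        simp only
        rw [dif_pos ⟨hx, hz⟩]
      refine ⟨hx, hz, hfx, a1, a3, ?_⟩
      rw [hfx]
      by_contra hcon
      exact a3 ((side_step a5 a2 a4 hcon).mp a1)
    refine Finset.card_le_card_of_injOn f ?_ ?_
    · rintro ⟨x, z⟩ hp
      rw [Finset.mem_coe, mem_toFinset] at hp
      obtain ⟨-, -, -, -, -, h5⟩ := hkey x z hp
      exact h5
    · rintro ⟨x, z⟩ hp ⟨x', z'⟩ hp' heq
      rw [Finset.mem_coe, mem_toFinset] at hp hp'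
      obtain ⟨hx, hz, h5, h6, h7, -⟩ := hkey x z hp
      obtain ⟨hx', hz', h5', h6', h7', -⟩ := hkey x' z' hp'
      rw [h5, h5', Sym2.eq_iff] at heq
      rcases heq with ⟨h8, h9⟩ | ⟨h8, h9⟩
      · rw [Fin.mk.injEq] at h8 h9
        rw [h8, h9]
      · exfalso
        rw [h8] at h6
        exact h7' h6

lemma length_le_size_rep {α : Type} [Rep α] (L : List α) : L.length ≤ (rep L).size := by
  rw [← len_rep_list]
  exact len_le_size _

/-- The decision problem is in NP. -/
theorem mixedCut_inNP : InNP MixedCut := by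
  refine ⟨2, verify, pt_verify, ?_⟩
  rintro ⟨L, v, w, k, m⟩
  constructor
  · intro h
    obtain ⟨c, hc, h1⟩ := verify_complete L v w k m h
    refine ⟨c, ?_, h1⟩
    have h2 : L.length ≤ (rep (L, v, w, k, m)).size := by
      refine (length_le_size_rep L).trans ?_
      rw [rep_pair]
      simp only [Tr.size]
      omega
    rw [hc]
    nlinarith
  · rintro ⟨c, -, h⟩
    exact verify_sound L v w k m c h

end Pool.Agent.ConnPair
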