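import Pool.Agent.Lib_helper55.ConnPair.Red
import Pool.Agent.Lib_helper79.PropInt.PolyRed

/-!
The reduction from CLIQUE and its computability in polynomial time.
-/

set_option autoImplicit false

namespace Pool.Agent.ConnPair

open Cd List Pool.Agent.Poly

lemma JJ_lower (n : ℕ) (A : ℕ → ℕ → Prop) {W : Finset ℕ} (hW : W ⊆ Finset.range n) :
    W.card * (n - W.card) ≤ (JJ n A W).card ∧
    ((JJ n A W).card ≤ W.card * (n - W.card) → ∀ i ∈ W, ∀ j ∈ W, j ≠ i → A i j) ∧
    ((∀ i ∈ W, ∀ j ∈ W, j ≠ i → A i j) → (JJ n A W).card ≤ W.card * (n - W.card)) := by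
  classical
  have hsub : W ×ˢ (Finset.range n \ W) ⊆ JJ n A W := by
    rintro ⟨i, j⟩ hij
    rw [Finset.mem_product, Finset.mem_sdiff] at hij
    unfold JJ
    rw [Finset.mem_filter, Finset.mem_product]
    simp only at hij ⊢
    refine ⟨⟨hij.1, hij.2.1⟩, ?_, fun h => hij.2.2 h.1⟩
    rintro rfl
    exact hij.2.2 hij.1
  have hcard : (W ×ˢ (Finset.range n \ W)).card = W.card * (n - W.card) := by
    rw [Finset.card_product, Finset.card_sdiff_of_subset hW, Finset.card_range]
  refine ⟨?_, ?_, ?_⟩
  · rw [← hcard]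
    exact Finset.card_le_card hsub
  · intro hle i hi j hj hji
    by_contra hA
    have h1 := Finset.eq_of_subset_of_card_le hsub (by rw [hcard]; exact hle)
    have h2 : (i, j) ∈ JJ n A W := by
      unfold JJ
      rw [Finset.mem_filter, Finset.mem_product]
      exact ⟨⟨hi, hW hj⟩, hji, fun h => hA h.2⟩
    rw [← h1, Finset.mem_product, Finset.mem_sdiff] at h2
    exact h2.2.2 hj
  · intro h
    rw [← hcard]
    apply Finset.card_le_card
    rintro ⟨i, j⟩ hij
    unfold JJ at hij
    rw [Finset.mem_filter, Finset.mem_product] at hij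
    obtain ⟨⟨ha, hb⟩, hc, hd⟩ := hij
    rw [Finset.mem_product, Finset.mem_sdiff]
    exact ⟨ha, hb, fun hj => hd ⟨hj, h i ha j hj hc⟩⟩

lemma hasClique_iff (L : List (List ℕ)) (q : ℕ) : HasClique (L, q) ↔
    ∃ W ⊆ Finset.range L.length, W.card = q ∧ ∀ i ∈ W, ∀ j ∈ W, j ≠ i → adjT L i j = true := by
  classical
  constructor
  · rintro ⟨W, hW, hc⟩
    refine ⟨W.map Fin.valEmbedding, ?_, ?_, ?_⟩
    · intro i hi
      obtain ⟨x, -, rfl⟩ := Finset.mem_map.mp hi
      exact Finset.mem_range.mpr x.2
    · rw [Finset.card_map]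
      exact hW
    · intro i hi j hj hji
      obtain ⟨x, hx, rfl⟩ := Finset.mem_map.mp hi
      obtain ⟨z, hz, rfl⟩ := Finset.mem_map.mp hj
      have h1 : x ≠ z := by
        rintro rfl
        exact hji rfl
      have h2 := hc hx hz h1
      exact ((adjT_iff L x z).mp h2).2
  · rintro ⟨W, hW, hq, hc⟩
    refine ⟨Finset.univ.filter (fun x : Fin L.length => (x : ℕ) ∈ W), ?_, ?_⟩
    · simp only
      rw [← hq, ← Finset.card_map Fin.valEmbedding]
      congr 1
      ext i
      rw [Finset.mem_map]
      constructor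
      · rintro ⟨x, hx, rfl⟩
        exact (Finset.mem_filter.mp hx).2
      · intro hi
        exact ⟨⟨i, Finset.mem_range.mp (hW hi)⟩, Finset.mem_filter.mpr ⟨Finset.mem_univ _, hi⟩, rfl⟩
    · intro x hx z hz hxz
      rw [Finset.mem_coe, Finset.mem_filter] at hx hz
      change (graphOf L).Adj x z
      rw [adjT_iff]
      exact ⟨hxz, hc _ hx.2 _ hz.2 (fun h => hxz (Fin.ext h.symm))⟩

/-- the second coordinate in the graph of the reduction -/
theorem mk_value (L : List (List ℕ)) {q : ℕ} (hq : q ≤ L.length) :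
    (∀ s, HasPair (graphOf (mk L)) (v0 L) (w0 L) s 0 → 2 * L.length * q ≤ s) ∧
    ∃ F, (∀ l, IsConnPair (graphOf (mk L)) (v0 L) (w0 L) (2 * L.length * q) l ↔ l = F) ∧
      (F ≤ (3 * L.length + q) * (L.length - q) ↔ HasClique (L, q)) ∧
      3 * L.length * (L.length - q) ≤ F := by
  classical
  set n := L.length with hn
  set A : ℕ → ℕ → Prop := fun i j => adjT L i j = true with hA
  have hsymm : ∀ i j, A i j → A j i := by
    intro i j h
    rw [hA] at h ⊢
    simp only at h ⊢
    rw [adjT_symm]
    exact h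
  have hex0 : ∃ m, ∃ W ⊆ Finset.range n, W.card = q ∧ (JJ n A W).card = m := by
    obtain ⟨W, h1, h2⟩ := Finset.exists_subset_card_eq (s := Finset.range n) (n := q) (by
      rw [Finset.card_range]
      exact hq)
    exact ⟨_, W, h1, h2, rfl⟩
  set m0 := Nat.find hex0 with hm0
  have hmin : ∀ W ⊆ Finset.range n, W.card = q → m0 ≤ (JJ n A W).card :=
    fun W h1 h2 => Nat.find_min' hex0 ⟨W, h1, h2, rfl⟩
  obtain ⟨hk, hLB, s0, hs0, hUB⟩ := value hsymm hq hmin (Nat.find_spec hex0)
  have hadj := emb_adj L
  have hrange : ∀ y z, (GG n A).Adj y z → ∃ x, emb L x = y := fun y z h => emb_surj L h.1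
  have hk' : ∀ s, HasPair (graphOf (mk L)) (v0 L) (w0 L) s 0 → 2 * n * q ≤ s :=
    fun s h => hk s (h.map (emb L) hadj hrange)
  have hvw : ¬ (graphOf (mk L)).Adj (v0 L) (w0 L) := by
    rw [hadj]
    exact not_adj_vw
  refine ⟨hk', 3 * n * (n - q) + m0, ?_, ?_, Nat.le_add_right _ _⟩
  · apply isConnPair_iff hvw hk'
    · obtain ⟨s', hs', h⟩ := HasPair.comap (emb L) (v := v0 L) (w := w0 L) hadj hrange hUB
      exact ⟨s', by omega, h⟩
    · intro s t hs h
      exact hLB s t hs (h.map (emb L) hadj hrange)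
  · rw [hasClique_iff, Nat.add_mul, Nat.add_le_add_iff_left]
    constructor
    · intro hle
      obtain ⟨W, h1, h2, h3⟩ := Nat.find_spec hex0
      refine ⟨W, h1, h2, ?_⟩
      apply (JJ_lower n A h1).2.1
      rw [h2, h3]
      exact hle
    · rintro ⟨W, h1, h2, h3⟩
      have h4 := (JJ_lower n A h1).2.2 h3
      rw [h2] at h4
      exact (hmin W h1 h2).trans h4

/-- degrees in the graph of the reduction -/
theorem mk_degree (L : List (List ℕ)) (x : Fin (mk L).length) (hx0 : (x : ℕ) ≠ 0)
    (hx1 : (x : ℕ) ≠ 1) : ((graphOf (mk L)).neighborSet x).ncard ≤ 4 := by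
  classical
  have hsymm : ∀ i j, adjT L i j = true → adjT L j i = true := by
    intro i j h
    rw [adjT_symm]
    exact h
  obtain ⟨N, hN, h⟩ := degree_le (n := L.length) hsymm (emb L x)
    (fun h => hx0 (by rw [(emb L).injective (h.trans (emb_v0 L).symm)]; rfl))
    (fun h => hx1 (by rw [(emb L).injective (h.trans (emb_w0 L).symm)]; rfl))
  refine le_trans ?_ hN
  rw [← Set.ncard_coe_finset N]
  refine Set.ncard_le_ncard_of_injOn (emb L) ?_ (emb L).injective.injOn N.finite_toSet
  intro z hz
  exact h _ ((emb_adj L x z).mp hz)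

/-- The reduction. -/
def red (I : List (List ℕ) × ℕ) : List (List ℕ) × ℕ × ℕ × ℕ × ℕ :=
  if I.2 ≤ I.1.length then
    (mk I.1, 0, 1, 2 * I.1.length * I.2, (3 * I.1.length + I.2) * (I.1.length - I.2))
  else (mk [[]], 0, 1, 0, 0)

lemma valid_mk (L : List (List ℕ)) {q m : ℕ} (hq : q ≤ L.length) :
    Valid 4 (mk L, 0, 1, 2 * L.length * q, m) := by
  obtain ⟨hk, -⟩ := mk_value L hq
  refine ⟨(v0 L).2, (w0 L).2, by simp, ?_, hk, fun x hx0 hx1 => mk_degree L x hx0 hx1⟩
  rw [emb_adj]
  exact not_adj_vw

theorem valid_red (I : List (List ℕ) × ℕ) : Valid 4 (red I) := by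
  unfold red
  split_ifs with h
  · exact valid_mk I.1 h
  · have := valid_mk [[]] (q := 0) (m := 0) (Nat.zero_le _)
    simpa using this

theorem red_iff (I : List (List ℕ) × ℕ) : HasClique I ↔ SecondLE (red I) := by
  unfold red
  split_ifs with h
  · obtain ⟨-, F, hF, hc, -⟩ := mk_value I.1 h
    have h1 : HasClique I ↔ F ≤ (3 * I.1.length + I.2) * (I.1.length - I.2) := hc.symm
    rw [h1]
    constructor
    · intro h2
      exact ⟨(v0 I.1).2, (w0 I.1).2, F, h2, (hF F).mpr rfl⟩
    · rintro ⟨hv, hw, l, hl, hpair⟩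
      have h2 := (hF l).mp hpair
      rw [← h2]
      exact hl
  · obtain ⟨-, F, hF, -, hlow⟩ := mk_value [[]] (q := 0) (Nat.zero_le _)
    constructor
    · rintro ⟨W, hW, -⟩
      exfalso
      apply h
      rw [← hW]
      have := Finset.card_le_univ W
      rwa [Fintype.card_fin] at this
    · rintro ⟨hv, hw, l, hl, hpair⟩
      exfalso
      have h2 := (hF l).mp hpair
      simp only at hl
      simp at hlow
      omega

/-! ### Polynomial time -/

section poly

variable {α : Type} [Rep α]

lemma pt_R {n : α → ℕ} (hn : PolyTime n) : PolyTime (fun x => R (n x)) := by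
  unfold R
  fun_prop

lemma pt_codes {n : α → ℕ} (hn : PolyTime n) : PolyTime (fun x => codes (n x)) := by
  unfold codes
  refine PolyTime.lcons (by fun_prop) (PolyTime.lcons (by fun_prop) (PolyTime.append ?_
    (PolyTime.append ?_ ?_)))
  · apply PolyTime.flatMap (by fun_prop)
    have h1 := pt_R (α := α × ℕ) (n := fun p => n p.1) (by fun_prop)
    apply PolyTime.flatMap
    · fun_prop
    · have h2 := pt_R (α := (α × ℕ) × ℕ) (n := fun p => n p.1.1) (by fun_prop)
      apply PolyTime.map
      · fun_prop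
      · fun_prop
  · apply PolyTime.flatMap (by fun_prop)
    apply PolyTime.map (by fun_prop)
    fun_prop
  · apply PolyTime.flatMap (by fun_prop)
    apply PolyTime.map (by fun_prop)
    fun_prop

lemma pt_adjT {L : α → List (List ℕ)} {i j : α → ℕ} (hL : PolyTime L) (hi : PolyTime i)
    (hj : PolyTime j) : PolyTime (fun x => adjT (L x) (i x) (j x)) := by
  unfold adjT
  apply PolyTime.or
  · apply PolyTime.any (by fun_prop)
    exact PolyTime.natEq (by fun_prop) (by fun_prop)
  · apply PolyTime.any (by fun_prop)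
    exact PolyTime.natEq (by fun_prop) (by fun_prop)

lemma pt_relB {L : α → List (List ℕ)} {n : α → ℕ} {p q : α → Code} (hL : PolyTime L)
    (hn : PolyTime n) (hp : PolyTime p) (hq : PolyTime q) :
    PolyTime (fun x => relB (L x) (n x) (p x) (q x)) := by
  have hR := pt_R hn
  have ha1 := pt_adjT hL (i := fun x => (p x).2.1) (j := fun x => (q x).2.1) (by fun_prop)
    (by fun_prop)
  have ha2 := pt_adjT hL (i := fun x => (p x).2.1) (j := fun x => (p x).2.2.1 - R (n x))
    (by fun_prop) (by fun_prop)
  have hd1 : PolyTime fun x => (p x).2.2.2 / 2 := PolyTime.div (by fun_prop) (by fun_prop)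
  have hd2 : PolyTime fun x => (q x).2.2.1 / 2 := PolyTime.div (by fun_prop) (by fun_prop)
  unfold relB
  apply PolyTime.ite
  · exact PolyTime.natEq (by fun_prop) (by fun_prop)
  · exact PolyTime.and (PolyTime.natEq (by fun_prop) (by fun_prop)) (PolyTime.and
      (PolyTime.natEq (by fun_prop) (by fun_prop)) (PolyTime.lt (by fun_prop) (by fun_prop)))
  · apply PolyTime.ite
    · exact PolyTime.natEq (by fun_prop) (by fun_prop)
    · fun_prop
    · apply PolyTime.ite
      · exact PolyTime.natEq (by fun_prop) (by fun_prop)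
      · apply PolyTime.ite
        · exact PolyTime.natEq (by fun_prop) (by fun_prop)
        · refine PolyTime.or (PolyTime.and ?_ (PolyTime.and ?_ ?_)) (PolyTime.or
            (PolyTime.and ?_ (PolyTime.and ?_ ?_))
            (PolyTime.and ?_ (PolyTime.and ?_ (PolyTime.and ?_ (PolyTime.and ?_ ha1)))))
          all_goals exact PolyTime.natEq (by fun_prop) (by fun_prop)
        · apply PolyTime.ite
          · exact PolyTime.natEq (by fun_prop) (by fun_prop)
          · refine PolyTime.and ?_ (PolyTime.and ?_ ?_)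
            all_goals exact PolyTime.natEq (by fun_prop) (by fun_prop)
          · apply PolyTime.ite
            · exact PolyTime.natEq (by fun_prop) (by fun_prop)
            · refine PolyTime.and ?_ (PolyTime.and ?_ (PolyTime.and ?_ (PolyTime.and ?_ ?_)))
              · exact PolyTime.natEq (by fun_prop) (by fun_prop)
              · exact PolyTime.le (by fun_prop) (by fun_prop)
              · exact PolyTime.lt (by fun_prop) (by fun_prop)
              · exact PolyTime.not (PolyTime.natEq (by fun_prop) (by fun_prop))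
              · exact PolyTime.not ha2
            · fun_prop
      · apply PolyTime.ite
        · exact PolyTime.natEq (by fun_prop) (by fun_prop)
        · refine PolyTime.and ?_ (PolyTime.and ?_ ?_)
          all_goals exact PolyTime.natEq (by fun_prop) (by fun_prop)
        · exact PolyTime.natEq (by fun_prop) (by fun_prop)

lemma pt_mk {L : α → List (List ℕ)} (hL : PolyTime L) : PolyTime (fun x => mk (L x)) := by
  unfold mk
  have h0 := pt_codes (n := fun x => (L x).length) (by fun_prop)
  have h1 := pt_codes (α := α × ℕ) (n := fun p => (L p.1).length) (by fun_prop)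
  have h2 := pt_codes (α := (α × ℕ) × ℕ) (n := fun p => (L p.1.1).length) (by fun_prop)
  apply PolyTime.map (by fun_prop)
  apply PolyTime.filter (by fun_prop)
  apply pt_relB
  · fun_prop
  · fun_prop
  · exact PolyTime.getD h2 (by fun_prop) (by fun_prop)
  · exact PolyTime.getD h2 (by fun_prop) (by fun_prop)

theorem pt_red : PolyTime red := by
  unfold red
  have h1 := pt_mk (α := List (List ℕ) × ℕ) (L := fun I => I.1) (by fun_prop)
  apply PolyTime.ite
  · exact PolyTime.le (by fun_prop) (by fun_prop)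
  · fun_prop
  · fun_prop

end poly

end Pool.Agent.ConnPair
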