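import Pool.Agent.Lib_helper55.ConnPair.Transfer

/-!
The graph of the reduction as a list of adjacency lists.
-/

set_option autoImplicit false

namespace Pool.Agent.ConnPair

open Cd List

/-- adjacency test -/
def adjT (L : List (List ℕ)) (i j : ℕ) : Bool :=
  (L.getD i []).any (fun x => decide (x = j)) || (L.getD j []).any (fun x => decide (x = i))

lemma adjT_symm (L : List (List ℕ)) (i j : ℕ) : adjT L i j = adjT L j i := by
  unfold adjT
  rw [Bool.or_comm]

lemma adjT_iff (L : List (List ℕ)) (u v : Fin L.length) :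
    (graphOf L).Adj u v ↔ u ≠ v ∧ adjT L u v = true := by
  unfold graphOf adjT
  rw [SimpleGraph.fromRel_adj]
  have h : ∀ (u : Fin L.length) (v : ℕ), ((L.getD u []).any (fun x => decide (x = v)) = true) ↔
      v ∈ L[(u : ℕ)] := by
    intro u v
    rw [getD_eq_getElem _ _ u.2, any_eq_true]
    constructor
    · rintro ⟨x, h1, h2⟩
      rw [decide_eq_true_eq] at h2
      rwa [← h2]
    · intro h
      exact ⟨v, h, by simp⟩
  rw [Bool.or_eq_true, h, h]

/-- Codes of the vertices. -/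
abbrev Code := ℕ × ℕ × ℕ × ℕ

/-- The vertex with a given code. -/
def toCd (p : Code) : Cd :=
  if p.1 = 0 then v else if p.1 = 1 then w else if p.1 = 2 then g p.2.1 p.2.2.1 p.2.2.2 else
    if p.1 = 3 then b p.2.1 p.2.2.1 else y p.2.1 p.2.2.1

/-- The list of all codes. -/
def codes (n : ℕ) : List Code :=
  (0, 0, 0, 0) :: (1, 0, 0, 0) ::
    (((range n).flatMap fun i => (range (2 * R n + n)).flatMap fun a =>
      (range (R n)).map fun c => (2, i, a, c)) ++
    (((range n).flatMap fun i => (range (2 * n)).map fun c => (3, i, c, 0)) ++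
    ((range n).flatMap fun i => (range (4 * n)).map fun c => (4, i, c, 0))))

/-- Adjacency of codes, in one of the two directions. -/
def relB (L : List (List ℕ)) (n : ℕ) (p q : Code) : Bool :=
  if p.1 = 0 then decide (q.1 = 2) && (decide (q.2.2.1 = 0) && decide (q.2.2.2 < 3 * n)) else
  if p.1 = 1 then false else
  if p.1 = 2 then
    (if q.1 = 2 then
      (decide (q.2.1 = p.2.1) && (decide (q.2.2.1 = p.2.2.1 + 1) && decide (q.2.2.2 = p.2.2.2))) ||
      ((decide (q.2.1 = p.2.1) && (decide (q.2.2.1 = p.2.2.1) &&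
        decide (q.2.2.2 = p.2.2.2 + 1))) ||
      (decide (p.2.2.2 = 0) && (decide (q.2.2.2 = 0) && (decide (p.2.2.1 = R n + q.2.1) &&
        (decide (q.2.2.1 = R n + p.2.1) && adjT L p.2.1 q.2.1)))))
    else if q.1 = 3 then
      decide (q.2.1 = p.2.1) && (decide (p.2.2.1 + 1 = 2 * R n + n) &&
        decide (q.2.2.1 = p.2.2.2 / 2))
    else if q.1 = 1 then
      decide (p.2.2.2 = 0) && (decide (R n ≤ p.2.2.1) && (decide (p.2.2.1 < R n + n) &&
        (!decide (p.2.2.1 = R n + p.2.1) && !adjT L p.2.1 (p.2.2.1 - R n))))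
    else false)
  else if p.1 = 3 then
    (decide (q.1 = 4) && (decide (q.2.1 = p.2.1) && decide (p.2.2.1 = q.2.2.1 / 2)))
  else decide (q.1 = 1)

/-- the codes in use -/
def okC (n : ℕ) (p : Code) : Prop :=
  p = (0, 0, 0, 0) ∨ p = (1, 0, 0, 0) ∨
  (p.1 = 2 ∧ p.2.1 < n ∧ p.2.2.1 < 2 * R n + n ∧ p.2.2.2 < R n) ∨
  (p.1 = 3 ∧ p.2.1 < n ∧ p.2.2.1 < 2 * n ∧ p.2.2.2 = 0) ∨
  (p.1 = 4 ∧ p.2.1 < n ∧ p.2.2.1 < 4 * n ∧ p.2.2.2 = 0)

lemma mem_codes (n : ℕ) (p : Code) : p ∈ codes n ↔ okC n p := by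
  obtain ⟨k, i, a, c⟩ := p
  unfold codes okC
  simp only [mem_cons, mem_append, mem_flatMap, mem_map, mem_range, Prod.mk.injEq]
  constructor
  · rintro (h | h | ⟨i', hi, a', ha, c', hc, h1, h2, h3, h4⟩ | ⟨i', hi, c', hc, h1, h2, h3, h4⟩ |
      ⟨i', hi, c', hc, h1, h2, h3, h4⟩)
    · exact Or.inl h
    · exact Or.inr (Or.inl h)
    · subst h1 h2 h3 h4
      exact Or.inr (Or.inr (Or.inl ⟨rfl, hi, ha, hc⟩))
    · subst h1 h2 h3 h4
      exact Or.inr (Or.inr (Or.inr (Or.inl ⟨rfl, hi, hc, rfl⟩)))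
    · subst h1 h2 h3 h4
      exact Or.inr (Or.inr (Or.inr (Or.inr ⟨rfl, hi, hc, rfl⟩)))
  · rintro (h | h | ⟨h1, h2, h3, h4⟩ | ⟨h1, h2, h3, h4⟩ | ⟨h1, h2, h3, h4⟩)
    · exact Or.inl h
    · exact Or.inr (Or.inl h)
    · subst h1
      exact Or.inr (Or.inr (Or.inl ⟨i, h2, a, h3, c, h4, rfl, rfl, rfl, rfl⟩))
    · subst h1 h4
      exact Or.inr (Or.inr (Or.inr (Or.inl ⟨i, h2, a, h3, rfl, rfl, rfl, rfl⟩)))
    · subst h1 h4
      exact Or.inr (Or.inr (Or.inr (Or.inr ⟨i, h2, a, h3, rfl, rfl, rfl, rfl⟩)))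

lemma nodup_codes (n : ℕ) : (codes n).Nodup := by
  unfold codes
  rw [nodup_cons, nodup_cons, nodup_append', nodup_append']
  refine ⟨?_, ?_, ?_, ⟨?_, ?_, ?_⟩, ?_⟩
  · simp
  · simp
  · refine nodup_flatMap.mpr ⟨?_, ?_⟩
    · intro i _
      refine nodup_flatMap.mpr ⟨?_, ?_⟩
      · intro a _
        exact nodup_range.map (fun c c' h => by simpa using h)
      · refine nodup_range.imp_of_mem ?_
        intro a a' _ _ hne
        change Disjoint _ _
        intro x hx hx'
        simp only [mem_map] at hx hx'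
        obtain ⟨c, -, rfl⟩ := hx
        obtain ⟨c', -, h⟩ := hx'
        simp only [Prod.mk.injEq] at h
        exact hne h.2.2.1.symm
    · refine nodup_range.imp_of_mem ?_
      intro a a' _ _ hne
      change Disjoint _ _
      intro x hx hx'
      simp only [mem_map, mem_flatMap] at hx hx'
      obtain ⟨a, -, c, -, rfl⟩ := hx
      obtain ⟨a', -, c', -, h⟩ := hx'
      simp only [Prod.mk.injEq] at h
      exact hne h.2.1.symm
  · refine nodup_flatMap.mpr ⟨?_, ?_⟩
    · intro i _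
      exact nodup_range.map (fun c c' h => by simpa using h)
    · refine nodup_range.imp_of_mem ?_
      intro a a' _ _ hne
      change Disjoint _ _
      intro x hx hx'
      simp only [mem_map] at hx hx'
      obtain ⟨c, -, rfl⟩ := hx
      obtain ⟨c', -, h⟩ := hx'
      simp only [Prod.mk.injEq] at h
      exact hne h.2.1.symm
  · refine nodup_flatMap.mpr ⟨?_, ?_⟩
    · intro i _
      exact nodup_range.map (fun c c' h => by simpa using h)
    · refine nodup_range.imp_of_mem ?_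
      intro a a' _ _ hne
      change Disjoint _ _
      intro x hx hx'
      simp only [mem_map] at hx hx'
      obtain ⟨c, -, rfl⟩ := hx
      obtain ⟨c', -, h⟩ := hx'
      simp only [Prod.mk.injEq] at h
      exact hne h.2.1.symm
  · intro x hx hx'
    simp only [mem_map, mem_flatMap] at hx hx'
    obtain ⟨a, -, c, -, rfl⟩ := hx
    obtain ⟨a', -, c', -, h⟩ := hx'
    simp only [Prod.mk.injEq] at h
    omega
  · intro x hx hx'
    simp only [mem_map, mem_flatMap, mem_append] at hx hx'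
    obtain ⟨i, -, a, -, c, -, rfl⟩ := hx
    rcases hx' with ⟨a', -, c', -, h⟩ | ⟨a', -, c', -, h⟩
    · simp only [Prod.mk.injEq] at h
      omega
    · simp only [Prod.mk.injEq] at h
      omega

lemma ok_toCd {n : ℕ} {p : Code} (h : okC n p) : ok n (toCd p) := by
  rcases h with rfl | rfl | ⟨h1, h2, h3, h4⟩ | ⟨h1, h2, h3, h4⟩ | ⟨h1, h2, h3, h4⟩
  · trivial
  · trivial
  · simp [toCd, h1, ok, h2, h3, h4]
  · simp [toCd, h1, ok, h2, h3]
  · simp [toCd, h1, ok, h2, h3]

lemma toCd_inj {n : ℕ} {p q : Code} (hp : okC n p) (hq : okC n q) (h : toCd p = toCd q) :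
    p = q := by
  obtain ⟨k, i, a, c⟩ := p
  obtain ⟨k', i', a', c'⟩ := q
  unfold okC at hp hq
  simp only [Prod.mk.injEq] at hp hq
  rcases hp with ⟨rfl, rfl, rfl, rfl⟩ | ⟨rfl, rfl, rfl, rfl⟩ | ⟨rfl, -, -, -⟩ |
    ⟨rfl, -, -, rfl⟩ | ⟨rfl, -, -, rfl⟩ <;>
  rcases hq with ⟨rfl, rfl, rfl, rfl⟩ | ⟨rfl, rfl, rfl, rfl⟩ | ⟨rfl, -, -, -⟩ |
    ⟨rfl, -, -, rfl⟩ | ⟨rfl, -, -, rfl⟩ <;> simp [toCd] at h <;> simp [h]

lemma exists_code {n : ℕ} {z : Cd} (h : ok n z) : ∃ p, okC n p ∧ toCd p = z := by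
  cases z with
  | v => exact ⟨(0, 0, 0, 0), Or.inl rfl, rfl⟩
  | w => exact ⟨(1, 0, 0, 0), Or.inr (Or.inl rfl), rfl⟩
  | g i a c => exact ⟨(2, i, a, c), Or.inr (Or.inr (Or.inl ⟨rfl, h.1, h.2.1, h.2.2⟩)), rfl⟩
  | b i c => exact ⟨(3, i, c, 0), Or.inr (Or.inr (Or.inr (Or.inl ⟨rfl, h.1, h.2, rfl⟩))), rfl⟩
  | y i c => exact ⟨(4, i, c, 0), Or.inr (Or.inr (Or.inr (Or.inr ⟨rfl, h.1, h.2, rfl⟩))), rfl⟩

lemma relB_iff (L : List (List ℕ)) (n : ℕ) {p q : Code} (hp : okC n p) (hq : okC n q) :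
    relB L n p q = true ↔ rel n (fun i j => adjT L i j = true) (toCd p) (toCd q) := by
  obtain ⟨k, i, a, c⟩ := p
  obtain ⟨k', i', a', c'⟩ := q
  unfold okC at hp hq
  simp only [Prod.mk.injEq] at hp hq
  rcases hp with ⟨rfl, rfl, rfl, rfl⟩ | ⟨rfl, rfl, rfl, rfl⟩ | ⟨rfl, -, -, -⟩ |
    ⟨rfl, -, -, rfl⟩ | ⟨rfl, -, -, rfl⟩ <;>
  rcases hq with ⟨rfl, rfl, rfl, rfl⟩ | ⟨rfl, rfl, rfl, rfl⟩ | ⟨rfl, -, -, -⟩ |
    ⟨rfl, -, -, rfl⟩ | ⟨rfl, -, -, rfl⟩ <;> simp [toCd, relB, rel]

/-- The adjacency lists of the graph of the reduction. -/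
def mk (L : List (List ℕ)) : List (List ℕ) :=
  (range (codes L.length).length).map fun x =>
    (range (codes L.length).length).filter fun z =>
      relB L L.length ((codes L.length).getD x (0, 0, 0, 0)) ((codes L.length).getD z (0, 0, 0, 0))

lemma mk_length (L : List (List ℕ)) : (mk L).length = (codes L.length).length := by
  unfold mk
  rw [length_map, length_range]

/-- the code of a vertex -/
def cod (L : List (List ℕ)) (x : ℕ) : Code := (codes L.length).getD x (0, 0, 0, 0)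

lemma cod_eq (L : List (List ℕ)) (x : ℕ) (hx : x < (codes L.length).length) :
    cod L x = (codes L.length)[x] := getD_eq_getElem _ _ hx

lemma okC_cod (L : List (List ℕ)) (x : Fin (mk L).length) : okC L.length (cod L x) := by
  have hx : (x : ℕ) < (codes L.length).length := by
    rw [← mk_length]
    exact x.2
  rw [cod_eq L x hx, ← mem_codes]
  exact getElem_mem hx

/-- the vertices as names -/
def emb (L : List (List ℕ)) : Fin (mk L).length ↪ Cd where
  toFun x := toCd (cod L x)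
  inj' := by
    intro x z h
    have h1 := toCd_inj (okC_cod L x) (okC_cod L z) h
    have hx : (x : ℕ) < (codes L.length).length := by
      rw [← mk_length]
      exact x.2
    have hz : (z : ℕ) < (codes L.length).length := by
      rw [← mk_length]
      exact z.2
    rw [cod_eq L x hx, cod_eq L z hz] at h1
    exact Fin.ext ((nodup_codes L.length).getElem_inj_iff.mp h1)

lemma emb_apply (L : List (List ℕ)) (x : Fin (mk L).length) : emb L x = toCd (cod L x) := rfl

lemma emb_adj (L : List (List ℕ)) (x z : Fin (mk L).length) : (graphOf (mk L)).Adj x z ↔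
    (GG L.length (fun i j => adjT L i j = true)).Adj (emb L x) (emb L z) := by
  unfold graphOf
  rw [SimpleGraph.fromRel_adj]
  have key : ∀ x z : Fin (mk L).length, (z : ℕ) ∈ (mk L)[(x : ℕ)] ↔
      relB L L.length (cod L x) (cod L z) = true := by
    intro x z
    have hx : (x : ℕ) < (codes L.length).length := by
      rw [← mk_length]
      exact x.2
    have hz : (z : ℕ) < (codes L.length).length := by
      rw [← mk_length]
      exact z.2
    have h1 : (mk L)[(x : ℕ)] = (range (codes L.length).length).filter fun z =>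
        relB L L.length ((codes L.length).getD x (0, 0, 0, 0))
          ((codes L.length).getD z (0, 0, 0, 0)) := by
      simp [mk]
    rw [h1, mem_filter, mem_range]
    exact ⟨fun h => h.2, fun h => ⟨hz, h⟩⟩
  rw [key, key, relB_iff L L.length (okC_cod L x) (okC_cod L z),
    relB_iff L L.length (okC_cod L z) (okC_cod L x)]
  change _ ↔ ok L.length _ ∧ ok L.length _ ∧ _ ∧ _
  constructor
  · rintro ⟨h1, h2⟩
    exact ⟨ok_toCd (okC_cod L x), ok_toCd (okC_cod L z), fun h => h1 ((emb L).injective h), h2⟩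
  · rintro ⟨-, -, h1, h2⟩
    exact ⟨fun h => h1 (by rw [h]), h2⟩

lemma emb_surj (L : List (List ℕ)) {z : Cd} (h : ok L.length z) : ∃ x, emb L x = z := by
  obtain ⟨p, hp, rfl⟩ := exists_code h
  rw [← mem_codes] at hp
  obtain ⟨x, hx, h1⟩ := getElem_of_mem hp
  have hx' : x < (mk L).length := by
    rw [mk_length]
    exact hx
  refine ⟨⟨x, hx'⟩, ?_⟩
  rw [emb_apply]
  congr 1
  rw [cod_eq L x hx]
  exact h1

lemma codes_length_ge (n : ℕ) : 2 ≤ (codes n).length := by
  unfold codes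
  rw [length_cons, length_cons]
  omega

/-- the terminal `v` -/
def v0 (L : List (List ℕ)) : Fin (mk L).length := ⟨0, by
  have := codes_length_ge L.length
  rw [mk_length]
  omega⟩

/-- the terminal `w` -/
def w0 (L : List (List ℕ)) : Fin (mk L).length := ⟨1, by
  have := codes_length_ge L.length
  rw [mk_length]
  omega⟩

lemma emb_v0 (L : List (List ℕ)) : emb L (v0 L) = v := rfl

lemma emb_w0 (L : List (List ℕ)) : emb L (w0 L) = w := rfl

end Pool.Agent.ConnPair
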