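import Pool.Agent.Lib_helper55.ConnPair.Value

/-!
Transfer of disconnecting pairs along embeddings onto all non-isolated vertices.
-/

set_option autoImplicit false

namespace Pool.Agent.ConnPair

variable {V V' : Type} {G : SimpleGraph V} {G' : SimpleGraph V'} (φ : V ↪ V')

lemma HasPair.map (hadj : ∀ x y, G.Adj x y ↔ G'.Adj (φ x) (φ y))
    (hrange : ∀ y z, G'.Adj y z → ∃ x, φ x = y) {v w : V} {s t : ℕ} (h : HasPair G v w s t) :
    HasPair G' (φ v) (φ w) s t := by
  classical
  obtain ⟨S, T, hv, hw, hT, hs, ht, hr⟩ := h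
  refine ⟨S.map φ, T.map φ.sym2Map, ?_, ?_, ?_, ?_, ?_, ?_⟩
  · rw [Finset.mem_map']
    exact hv
  · rw [Finset.mem_map']
    exact hw
  · intro e he
    obtain ⟨f, hf, rfl⟩ := Finset.mem_map.mp he
    have h1 := hT f hf
    clear hf he
    revert h1
    refine Sym2.ind (fun a b => ?_) f
    intro h1
    exact (hadj a b).mp h1
  · rw [Finset.card_map]
    exact hs
  · rw [Finset.card_map]
    exact ht
  · refine not_reachable_of_closed (φ '' side G S T v)
      ⟨v, SimpleGraph.Reachable.refl v, rfl⟩ ?_ ?_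
    · rintro ⟨x, hx, hxw⟩
      have : x = w := φ.injective hxw
      subst this
      exact hr hx
    · rintro _ ⟨x, hx, rfl⟩ z ⟨h1, h2, h3, h4⟩
      obtain ⟨y, rfl⟩ := hrange z _ h1.symm
      rw [Finset.mem_map'] at h2 h3
      refine ⟨y, ?_, rfl⟩
      refine (side_step ((hadj x y).mpr h1) h2 h3 ?_).mp hx
      intro h5
      apply h4
      rw [Finset.mem_map]
      exact ⟨_, h5, rfl⟩

lemma HasPair.comap (hadj : ∀ x y, G.Adj x y ↔ G'.Adj (φ x) (φ y))
    (hrange : ∀ y z, G'.Adj y z → ∃ x, φ x = y) {v w : V} {s t : ℕ}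
    (h : HasPair G' (φ v) (φ w) s t) : ∃ s' ≤ s, HasPair G v w s' t := by
  classical
  obtain ⟨S, T, hv, hw, hT, rfl, rfl, hr⟩ := h
  have hTr : ∀ e ∈ T, ∃ f : Sym2 V, φ.sym2Map f = e := by
    intro e he
    have h1 := hT e he
    clear he
    revert h1
    refine Sym2.ind (fun a b => ?_) e
    intro h1
    obtain ⟨x, rfl⟩ := hrange a b h1
    obtain ⟨y, rfl⟩ := hrange b _ h1.symm
    exact ⟨s(x, y), rfl⟩
  refine ⟨(S.preimage φ φ.injective.injOn).card, ?_, S.preimage φ φ.injective.injOn,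
    T.preimage φ.sym2Map φ.sym2Map.injective.injOn, ?_, ?_, ?_, rfl, ?_, ?_⟩
  · rw [Finset.card_preimage]
    exact Finset.card_filter_le _ _
  · rw [Finset.mem_preimage]
    exact hv
  · rw [Finset.mem_preimage]
    exact hw
  · intro e he
    rw [Finset.mem_preimage] at he
    have h1 := hT _ he
    clear he
    revert h1
    refine Sym2.ind (fun a b => ?_) e
    intro h1
    exact (hadj a b).mpr h1
  · rw [Finset.card_preimage]
    congr 1
    rw [Finset.filter_eq_self]
    intro e he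
    exact hTr e he
  · refine not_reachable_of_closed (φ ⁻¹' side G' S T (φ v))
      (SimpleGraph.Reachable.refl (G := del G' S T) (φ v)) hr ?_
    rintro x hx z ⟨h1, h2, h3, h4⟩
    rw [Finset.mem_preimage] at h2 h3 h4
    exact (side_step ((hadj x z).mp h1) h2 h3 h4).mp hx

end Pool.Agent.ConnPair
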