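import Pool.Agent.Lib_helper55.ConnPair.Gadget

/-!
The second coordinate in the graph of the reduction.
-/

set_option autoImplicit false

namespace Pool.Agent.ConnPair

open Cd

variable {n : ℕ} {A : ℕ → ℕ → Prop}

lemma JJ_card_le (W : Finset ℕ) : (JJ n A W).card ≤ n * W.card := by
  classical
  unfold JJ
  refine (Finset.card_filter_le _ _).trans ?_
  rw [Finset.card_product, Finset.card_range, Nat.mul_comm]

/-- comparing sets of different sizes -/
lemma exchange {W : Finset ℕ} (hW : W ⊆ Finset.range n) {q : ℕ} (hq : q ≤ n) :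
    ∃ W' ⊆ Finset.range n, W'.card = q ∧
      (JJ n A W').card ≤ (JJ n A W).card + n * (W.card - q) + n * (q - W.card) := by
  classical
  rcases le_total W.card q with h | h
  · obtain ⟨W', h1, h2, h3⟩ := Finset.exists_subsuperset_card_eq hW h (by
      rw [Finset.card_range]
      exact hq)
    refine ⟨W', h2, h3, ?_⟩
    have h4 : JJ n A W' ⊆ JJ n A W ∪ (W' \ W) ×ˢ Finset.range n := by
      rintro ⟨i, j⟩ hij
      unfold JJ at hij
      rw [Finset.mem_filter, Finset.mem_product] at hij
      obtain ⟨⟨ha, hb⟩, hc, hd⟩ := hij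
      rw [Finset.mem_union]
      by_cases hi : i ∈ W
      · left
        unfold JJ
        rw [Finset.mem_filter, Finset.mem_product]
        exact ⟨⟨hi, hb⟩, hc, fun he => hd ⟨h1 he.1, he.2⟩⟩
      · right
        rw [Finset.mem_product, Finset.mem_sdiff]
        exact ⟨⟨ha, hi⟩, hb⟩
    have h5 := (Finset.card_le_card h4).trans (Finset.card_union_le _ _)
    rw [Finset.card_product, Finset.card_sdiff_of_subset h1, Finset.card_range, h3,
      Nat.mul_comm] at h5
    omega
  · obtain ⟨W', h1, h3⟩ := Finset.exists_subset_card_eq h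
    refine ⟨W', h1.trans hW, h3, ?_⟩
    have h4 : JJ n A W' ⊆ JJ n A W ∪ (Finset.range n) ×ˢ (W \ W') := by
      rintro ⟨i, j⟩ hij
      unfold JJ at hij
      rw [Finset.mem_filter, Finset.mem_product] at hij
      obtain ⟨⟨ha, hb⟩, hc, hd⟩ := hij
      rw [Finset.mem_union]
      by_cases hj : j ∈ W ∧ A i j
      · right
        rw [Finset.mem_product, Finset.mem_sdiff]
        exact ⟨hW (h1 ha), hj.1, fun h6 => hd ⟨h6, hj.2⟩⟩
      · left
        unfold JJ
        rw [Finset.mem_filter, Finset.mem_product]
        exact ⟨⟨h1 ha, hb⟩, hc, hj⟩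
    have h5 := (Finset.card_le_card h4).trans (Finset.card_union_le _ _)
    rw [Finset.card_product, Finset.card_sdiff_of_subset h1, Finset.card_range, h3] at h5
    omega

/-- the lower bound -/
theorem lower_bound {q m0 : ℕ} (hq : q ≤ n)
    (hm0 : ∀ W ⊆ Finset.range n, W.card = q → m0 ≤ (JJ n A W).card) {s t : ℕ}
    (hs : s ≤ 2 * n * q) (h : HasPair (GG n A) v w s t) : 3 * n * (n - q) + m0 ≤ t := by
  classical
  have hm0' : m0 ≤ n * q := by
    obtain ⟨W, h1, h2⟩ := Finset.exists_subset_card_eq (s := Finset.range n) (n := q) (by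
      rw [Finset.card_range]
      exact hq)
    have h3 := hm0 W h1 h2
    have h4 := JJ_card_le (n := n) (A := A) W
    rw [h2] at h4
    omega
  obtain ⟨r, rfl⟩ : ∃ r, n = q + r := ⟨n - q, by omega⟩
  have e0 : q + r - q = r := by omega
  rw [e0]
  by_cases ht : 3 * (q + r) * (q + r) ≤ t
  · refine le_trans ?_ ht
    have e1 : 3 * (q + r) * (q + r) = 3 * (q + r) * q + 3 * (q + r) * r := by ring
    have e2 : 3 * (q + r) * q = (q + r) * q + 2 * ((q + r) * q) := by ring
    omega
  · obtain ⟨W, hW, hA, hB⟩ := lower h (by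
      unfold R
      have h1 : 2 * (q + r) * q ≤ 2 * (q + r) * (q + r) := Nat.mul_le_mul_left _ (by omega)
      have h2 : 6 * (q + r) * (q + r) = 2 * (q + r) * (q + r) + 3 * (q + r) * (q + r) +
        (q + r) * (q + r) := by ring
      omega)
    obtain ⟨W', hW', hc', hle⟩ := exchange (A := A) hW hq
    have h3 := hm0 W' hW' hc'
    have hWn : W.card ≤ q + r := by
      have := Finset.card_le_card hW
      rwa [Finset.card_range] at this
    rcases le_total W.card q with h4 | h4
    · obtain ⟨u, hu⟩ : ∃ u, q = W.card + u := ⟨q - W.card, by omega⟩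
      have e1 : q + r - W.card = u + r := by omega
      have e2 : q - W.card = u := by omega
      have e3 : W.card - q = 0 := by omega
      rw [e1] at hB
      rw [e2, e3] at hle
      have e4 : 3 * (q + r) * (u + r) = 3 * ((q + r) * u) + 3 * (q + r) * r := by ring
      have e5 : 2 * (q + r) * q = 2 * (q + r) * W.card + 2 * ((q + r) * u) := by
        rw [hu]
        ring
      omega
    · obtain ⟨u, hu⟩ : ∃ u, W.card = q + u := ⟨W.card - q, by omega⟩
      obtain ⟨u', hu'⟩ : ∃ u', r = u + u' := ⟨r - u, by omega⟩
      have e1 : q + r - W.card = u' := by omega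
      have e2 : q - W.card = 0 := by omega
      have e3 : W.card - q = u := by omega
      rw [e1] at hA
      rw [e2, e3] at hle
      have e4 : 3 * (q + r) * r = 3 * ((q + r) * u) + 3 * (q + r) * u' := by
        rw [hu']
        ring
      have e5 : 4 * (q + r) * W.card = 2 * (2 * (q + r) * q) + 4 * ((q + r) * u) := by
        rw [hu]
        ring
      omega

/-- separating sets of vertices are large -/
theorem lower_kappa {q s : ℕ} (hq : q ≤ n) (h : HasPair (GG n A) v w s 0) : 2 * n * q ≤ s := by
  by_contra hc
  have h1 : 2 * n * q ≤ 2 * n * n := Nat.mul_le_mul_left _ hq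
  obtain ⟨W, hW, -, hB⟩ := lower h (by
    unfold R
    have h2 : 6 * n * n = 2 * n * n + 4 * n * n := by ring
    omega)
  have hWn : W.card ≤ n := by
    have := Finset.card_le_card hW
    rwa [Finset.card_range] at this
  obtain ⟨u, hu⟩ : ∃ u, n = W.card + u := ⟨n - W.card, by omega⟩
  have e1 : n - W.card = u := by omega
  rw [e1] at hB
  have e2 : 2 * n * n = 2 * n * W.card + 2 * n * u := by
    nth_rw 2 [hu]
    ring
  have e3 : 3 * n * u = 2 * n * u + n * u := by ring
  omega

/-- the upper bound -/
theorem upper_bound (hA : ∀ i j, A i j → A j i) {W : Finset ℕ} (hW : W ⊆ Finset.range n) :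
    ∃ s ≤ 2 * n * W.card, ∃ t ≤ 3 * n * (n - W.card) + (JJ n A W).card,
      HasPair (GG n A) v w s t := by
  classical
  set S : Finset Cd := (W ×ˢ Finset.range (2 * n)).image (fun p => b p.1 p.2) with hS
  set T1 : Finset (Sym2 Cd) := ((Finset.range n \ W) ×ˢ Finset.range (3 * n)).image
    (fun p => s(v, g p.1 0 p.2)) with hT1
  set T2 : Finset (Sym2 Cd) := (JJ n A W).image (fun p => if A p.1 p.2 then
    s(g p.1 (R n + p.2) 0, g p.2 (R n + p.1) 0) else s(g p.1 (R n + p.2) 0, w)) with hT2
  have hmemJ : ∀ i j, (i, j) ∈ JJ n A W ↔ (i ∈ W ∧ j < n) ∧ j ≠ i ∧ ¬ (j ∈ W ∧ A i j) := by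
    intro i j
    unfold JJ
    rw [Finset.mem_filter, Finset.mem_product, Finset.mem_range]
  have hWn : ∀ i ∈ W, i < n := fun i hi => Finset.mem_range.mp (hW hi)
  have hRn := le_R n
  refine ⟨S.card, ?_, (T1 ∪ T2).card, ?_, S, T1 ∪ T2, ?_, ?_, ?_, rfl, rfl, ?_⟩
  · refine Finset.card_image_le.trans ?_
    rw [Finset.card_product, Finset.card_range, Nat.mul_comm]
  · refine (Finset.card_union_le _ _).trans (Nat.add_le_add ?_ Finset.card_image_le)
    refine Finset.card_image_le.trans ?_
    rw [Finset.card_product, Finset.card_sdiff_of_subset hW, Finset.card_range, Finset.card_range,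
      Nat.mul_comm]
  · rw [hS, Finset.mem_image]
    rintro ⟨p, -, h⟩
    cases h
  · rw [hS, Finset.mem_image]
    rintro ⟨p, -, h⟩
    cases h
  · intro e he
    rcases Finset.mem_union.mp he with he | he
    · rw [hT1, Finset.mem_image] at he
      obtain ⟨⟨i, c⟩, h1, rfl⟩ := he
      rw [Finset.mem_product, Finset.mem_sdiff, Finset.mem_range, Finset.mem_range] at h1
      simp only at h1 ⊢
      exact adj_v h1.1.1 h1.2 (by omega)
    · rw [hT2, Finset.mem_image] at he
      obtain ⟨⟨i, j⟩, h1, rfl⟩ := he
      rw [hmemJ] at h1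
      obtain ⟨⟨hi, hj⟩, hji, -⟩ := h1
      simp only
      split_ifs with h2
      · exact adj_A (hWn i hi) hj hji h2
      · exact adj_notA (hWn i hi) hj hji h2
  · refine not_reachable_of_closed {x | x = v ∨ ∃ i ∈ W, ∃ a c, x = g i a c} (Or.inl rfl) ?_ ?_
    · rintro (h | ⟨i, -, a, c, h⟩)
      · cases h
      · cases h
    · rintro x hx z ⟨⟨hokx, hokz, hne, hrel⟩, hxS, hzS, he⟩
      rw [Finset.mem_union, not_or] at he
      obtain ⟨he1, he2⟩ := he
      rcases hx with rfl | ⟨i, hi, a, c, rfl⟩
      · rcases hrel with hrel | hrel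
        · cases z with
          | g i' a' c' =>
            obtain ⟨rfl, hc'⟩ := hrel
            right
            by_contra hcon
            apply he1
            rw [hT1, Finset.mem_image]
            refine ⟨(i', c'), ?_, rfl⟩
            rw [Finset.mem_product, Finset.mem_sdiff, Finset.mem_range, Finset.mem_range]
            exact ⟨⟨hokz.1, fun h => hcon ⟨i', h, _, _, rfl⟩⟩, hc'⟩
          | v => exact hrel.elim
          | w => exact hrel.elim
          | b i' c' => exact hrel.elim
          | y i' c' => exact hrel.elim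
        · cases z <;> exact hrel.elim
      · have hin := hWn i hi
        cases z with
        | v => exact Or.inl rfl
        | w =>
          exfalso
          rcases hrel with hrel | hrel
          · obtain ⟨rfl, h1, h2, h3, h4⟩ := hrel
            obtain ⟨j, rfl⟩ : ∃ j, a = R n + j := ⟨a - R n, by omega⟩
            rw [Nat.add_sub_cancel_left] at h4
            apply he2
            rw [hT2, Finset.mem_image]
            refine ⟨(i, j), (hmemJ i j).mpr ⟨⟨hi, by omega⟩, by omega, fun h5 => h4 h5.2⟩, ?_⟩
            simp only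
            rw [if_neg h4]
          · exact hrel.elim
        | g i' a' c' =>
          right
          have hcoup : ∀ i', i' < n → A i i' →
              s(g i (R n + i') 0, g i' (R n + i) 0) ∉ T2 → i' ∈ W := by
            intro i' hi' h5 h6
            by_contra hcon
            apply h6
            rw [hT2, Finset.mem_image]
            refine ⟨(i, i'), (hmemJ i i').mpr ⟨⟨hi, hi'⟩, ?_, fun h7 => hcon h7.1⟩, ?_⟩
            · rintro rfl
              exact hcon hi
            · simp only
              rw [if_pos h5]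
          rcases hrel with hrel | hrel
          · rcases hrel with ⟨rfl, -, -⟩ | ⟨rfl, -, -⟩ | ⟨rfl, rfl, rfl, rfl, h5⟩
            · exact ⟨i', hi, _, _, rfl⟩
            · exact ⟨i', hi, _, _, rfl⟩
            · exact ⟨i', hcoup i' hokz.1 h5 he2, _, _, rfl⟩
          · rcases hrel with ⟨rfl, -, -⟩ | ⟨rfl, -, -⟩ | ⟨rfl, rfl, rfl, rfl, h5⟩
            · exact ⟨i, hi, _, _, rfl⟩
            · exact ⟨i, hi, _, _, rfl⟩
            · exact ⟨i', hcoup i' hokz.1 (hA _ _ h5) he2, _, _, rfl⟩
        | b i' c' =>
          exfalso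
          rcases hrel with hrel | hrel
          · obtain ⟨rfl, -, -⟩ := hrel
            apply hzS
            rw [hS, Finset.mem_image]
            exact ⟨(i', c'), Finset.mem_product.mpr ⟨hi, Finset.mem_range.mpr hokz.2⟩, rfl⟩
          · exact hrel.elim
        | y i' c' =>
          rcases hrel with hrel | hrel <;> exact hrel.elim

lemma not_adj_vw : ¬ (GG n A).Adj v w := by
  rintro ⟨-, -, -, h | h⟩ <;> exact h.elim

/-- The second coordinate in the graph of the reduction. -/
theorem value (hA : ∀ i j, A i j → A j i) {q m0 : ℕ} (hq : q ≤ n)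
    (hm0 : ∀ W ⊆ Finset.range n, W.card = q → m0 ≤ (JJ n A W).card)
    (hex : ∃ W ⊆ Finset.range n, W.card = q ∧ (JJ n A W).card = m0) :
    (∀ s, HasPair (GG n A) v w s 0 → 2 * n * q ≤ s) ∧
    (∀ s t, s ≤ 2 * n * q → HasPair (GG n A) v w s t → 3 * n * (n - q) + m0 ≤ t) ∧
    ∃ s ≤ 2 * n * q, HasPair (GG n A) v w s (3 * n * (n - q) + m0) := by
  have hLB : ∀ s t, s ≤ 2 * n * q → HasPair (GG n A) v w s t → 3 * n * (n - q) + m0 ≤ t :=
    fun s t hs h => lower_bound hq hm0 hs h
  refine ⟨fun s h => lower_kappa hq h, hLB, ?_⟩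
  obtain ⟨W, hW, hc, hJ⟩ := hex
  obtain ⟨s, hs, t, ht, h⟩ := upper_bound hA hW
  rw [hc] at hs ht
  rw [hJ] at ht
  have h1 := hLB s t hs h
  have h2 : t = 3 * n * (n - q) + m0 := by omega
  rw [h2] at h
  exact ⟨s, hs, h⟩

/-- the vertices other than the terminals have degree at most four -/
theorem degree_le (hA : ∀ i j, A i j → A j i) (x : Cd) (hxv : x ≠ v) (hxw : x ≠ w) :
    ∃ N : Finset Cd, N.card ≤ 4 ∧ ∀ z, (GG n A).Adj x z → z ∈ N := by
  classical
  cases x with
  | v => exact absurd rfl hxv
  | w => exact absurd rfl hxw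
  | g i a c =>
    refine ⟨{if a = 0 then v else g i (a - 1) c,
      if a + 1 = 2 * R n + n then b i (c / 2) else g i (a + 1) c,
      if c = 0 then (if A i (a - R n) then g (a - R n) (R n + i) 0 else w) else g i a (c - 1),
      g i a (c + 1)}, Finset.card_le_four, ?_⟩
    rintro z ⟨hokx, hokz, hne, hrel⟩
    simp only [Finset.mem_insert, Finset.mem_singleton]
    cases z with
    | v =>
      rcases hrel with hrel | hrel
      · exact hrel.elim
      · obtain ⟨rfl, -⟩ := hrel
        left
        rw [if_pos rfl]
    | w =>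
      rcases hrel with hrel | hrel
      · obtain ⟨rfl, h1, h2, h3, h4⟩ := hrel
        right; right; left
        rw [if_pos rfl, if_neg h4]
      · exact hrel.elim
    | g i' a' c' =>
      rcases hrel with hrel | hrel
      · rcases hrel with ⟨rfl, rfl, rfl⟩ | ⟨rfl, rfl, rfl⟩ | ⟨rfl, rfl, rfl, rfl, h5⟩
        · right; left
          rw [if_neg]
          have := hokz.2.1
          omega
        · right; right; right
          rfl
        · right; right; left
          rw [if_pos rfl, Nat.add_sub_cancel_left, if_pos h5]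
      · rcases hrel with ⟨rfl, rfl, rfl⟩ | ⟨rfl, rfl, rfl⟩ | ⟨rfl, rfl, rfl, rfl, h5⟩
        · left
          rw [if_neg (by omega), Nat.add_sub_cancel]
        · right; right; left
          rw [if_neg (by omega), Nat.add_sub_cancel]
        · right; right; left
          rw [if_pos rfl, Nat.add_sub_cancel_left, if_pos (hA _ _ h5)]
    | b i' c' =>
      rcases hrel with hrel | hrel
      · obtain ⟨rfl, h1, rfl⟩ := hrel
        right; left
        rw [if_pos h1]
      · exact hrel.elim
    | y i' c' =>
      rcases hrel with hrel | hrel <;> exact hrel.elim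
  | b i c =>
    refine ⟨{g i (2 * R n + n - 1) (2 * c), g i (2 * R n + n - 1) (2 * c + 1), y i (2 * c),
      y i (2 * c + 1)}, Finset.card_le_four, ?_⟩
    rintro z ⟨hokx, hokz, hne, hrel⟩
    simp only [Finset.mem_insert, Finset.mem_singleton]
    cases z with
    | v => rcases hrel with hrel | hrel <;> exact hrel.elim
    | w => rcases hrel with hrel | hrel <;> exact hrel.elim
    | g i' a' c' =>
      rcases hrel with hrel | hrel
      · exact hrel.elim
      · obtain ⟨rfl, h1, rfl⟩ := hrel
        have h2 : a' = 2 * R n + n - 1 := by omega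
        subst h2
        rcases Nat.mod_two_eq_zero_or_one c' with h3 | h3
        · left
          congr 1
          omega
        · right; left
          congr 1
          omega
    | b i' c' => rcases hrel with hrel | hrel <;> exact hrel.elim
    | y i' c' =>
      rcases hrel with hrel | hrel
      · obtain ⟨rfl, rfl⟩ := hrel
        rcases Nat.mod_two_eq_zero_or_one c' with h3 | h3
        · right; right; left
          congr 1
          omega
        · right; right; right
          congr 1
          omega
      · exact hrel.elim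
  | y i c =>
    refine ⟨{b i (c / 2), w}, (Finset.card_le_two).trans (by omega), ?_⟩
    rintro z ⟨hokx, hokz, hne, hrel⟩
    simp only [Finset.mem_insert, Finset.mem_singleton]
    cases z with
    | v => rcases hrel with hrel | hrel <;> exact hrel.elim
    | w => exact Or.inr rfl
    | g i' a' c' => rcases hrel with hrel | hrel <;> exact hrel.elim
    | b i' c' =>
      rcases hrel with hrel | hrel
      · exact hrel.elim
      · obtain ⟨rfl, rfl⟩ := hrel
        exact Or.inl rfl
    | y i' c' => rcases hrel with hrel | hrel <;> exact hrel.elim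

end Pool.Agent.ConnPair
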